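import Pool.Agent.H461.Fam.Main

/-!
# Many points with a small radical close to a given point
-/

set_option autoImplicit false

namespace Pool.Agent.H461.Low

open Finset Polynomial Filter Topology
open Pool.Agent.Y670.RD Pool.Agent.H461.Fam

theorem fv_ext (f : ℤ[X]) (r q : ℕ) (hr : f.natDegree ≤ r) (hrq : r ≤ q) (x y : ℤ) (hy : y ≠ 0) :
    fv q f x y = y ^ (q - r) * fv r f x y := by
  have h1 := fvq (f := f) (N := q) (s := x) (hr.trans hrq) hy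
  have h2 := fvq (f := f) (N := r) (s := x) hr hy
  have h3 : (fv q f x y : ℚ) = ((y ^ (q - r) * fv r f x y : ℤ) : ℚ) := by
    push_cast
    rw [h1, h2, ← mul_assoc, ← pow_add, Nat.sub_add_cancel hrq]
  exact_mod_cast h3

theorem rad_bd (P D y G : ℤ) (hP : P ≠ 0) (hy : y ≠ 0) (hG : G ≠ 0) (hDG : D ∣ G)
    (hDP : ∀ p : ℕ, p.Prime → (p : ℤ) ∣ D → (p : ℤ) ∣ P) (δ : ℕ) :
    (∏ p ∈ (y ^ δ * G).natAbs.primeFactors, (p : ℝ)) * |(D : ℝ)| ≤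
      |(y : ℝ)| ^ δ * |(P : ℝ)| * |(G : ℝ)| := by
  classical
  obtain ⟨w, hw⟩ := hDG
  have hw0 : w ≠ 0 := by
    rintro rfl
    rw [mul_zero] at hw
    exact hG hw
  set n : ℤ := y ^ δ * P * w with hn
  have hn0 : n ≠ 0 := mul_ne_zero (mul_ne_zero (pow_ne_zero _ hy) hP) hw0
  have hsub : (y ^ δ * G).natAbs.primeFactors ⊆ n.natAbs.primeFactors := by
    intro p hp
    rw [Nat.mem_primeFactors] at hp ⊢
    refine ⟨hp.1, ?_, Int.natAbs_ne_zero.2 hn0⟩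
    have hpI : Prime (p : ℤ) := Nat.prime_iff_prime_int.1 hp.1
    rw [← Int.natCast_dvd]
    have h1 : (p : ℤ) ∣ y ^ δ * G := Int.natCast_dvd.2 hp.2.1
    rcases hpI.dvd_or_dvd h1 with h2 | h2
    · rw [hn]
      exact (h2.mul_right _).mul_right _
    · rw [hw] at h2
      rcases hpI.dvd_or_dvd h2 with h4 | h4
      · rw [hn]
        exact ((hDP p hp.1 h4).mul_left _).mul_right _
      · rw [hn]
        exact h4.mul_left _
  have h1 : ∏ p ∈ (y ^ δ * G).natAbs.primeFactors, p ≤ n.natAbs := by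
    refine (prod_primes_le _ _ hsub fun p hp => (Nat.prime_of_mem_primeFactors hp).one_lt.le).trans ?_
    exact rad_le _ (Int.natAbs_ne_zero.2 hn0)
  have h2 : (∏ p ∈ (y ^ δ * G).natAbs.primeFactors, (p : ℝ)) ≤ |(n : ℝ)| := by
    have : ((∏ p ∈ (y ^ δ * G).natAbs.primeFactors, p : ℕ) : ℝ) ≤ (n.natAbs : ℝ) := by
      exact_mod_cast h1
    rwa [Nat.cast_natAbs, Int.cast_abs, Nat.cast_prod] at this
  calc (∏ p ∈ (y ^ δ * G).natAbs.primeFactors, (p : ℝ)) * |(D : ℝ)| ≤ |(n : ℝ)| * |(D : ℝ)| :=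
        mul_le_mul_of_nonneg_right h2 (abs_nonneg _)
    _ = _ := by
      rw [hn, hw]
      push_cast
      rw [abs_mul, abs_mul, abs_mul, abs_pow]
      ring

theorem near_ne (f : ℤ[X]) {t₀ : ℝ} (h : aeval t₀ f ≠ 0) (η : ℝ) (hη : 0 < η) :
    ∃ η₁ : ℝ, 0 < η₁ ∧ η₁ ≤ η ∧ ∀ t : ℝ, |t - t₀| < η₁ → aeval t f ≠ 0 := by
  have hc : Continuous fun t : ℝ => aeval t f := f.continuous_aeval
  have h3 := hc.continuousAt.eventually (isOpen_ne.mem_nhds h)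
  obtain ⟨r, hr, h5⟩ := Metric.eventually_nhds_iff.1 h3
  refine ⟨min r η, lt_min hr hη, min_le_right _ _, fun t ht => ?_⟩
  exact h5 (show dist t t₀ < r by
    rw [Real.dist_eq]
    exact ht.trans_le (min_le_left _ _))

/-- the parameter of a point of a small box -/
theorem near_quot (x y : ℤ) (t₀ : ℚ) (η₁ η₂ H : ℝ) (hη₁ : 0 < η₁) (hη₂1 : η₂ ≤ 1 / 2)
    (hη₂2 : η₂ ≤ η₁ / (4 * (1 + |(t₀ : ℝ)|))) (hHp : 0 < H)
    (hxH : |(x : ℝ) - H * t₀| ≤ η₂ * H) (hyH : |(y : ℝ) - H| ≤ η₂ * H) :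
    H / 2 ≤ (y : ℝ) ∧ (y : ℝ) ≤ 2 * H ∧ |(x : ℝ)| ≤ (|(t₀ : ℝ)| + 2) * H ∧
      |(x : ℝ) / y - t₀| < η₁ := by
  rw [abs_le] at hyH
  have hηH : η₂ * H ≤ 1 / 2 * H := mul_le_mul_of_nonneg_right hη₂1 hHp.le
  have hy1 : H / 2 ≤ (y : ℝ) := by linarith [hyH.1]
  have hy2 : (y : ℝ) ≤ 2 * H := by linarith [hyH.2]
  have hyp : (0 : ℝ) < y := by linarith
  refine ⟨hy1, hy2, ?_, ?_⟩
  · have h1 : |(x : ℝ)| ≤ |(x : ℝ) - H * t₀| + |H * (t₀ : ℝ)| := by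
      have := abs_add_le ((x : ℝ) - H * t₀) (H * t₀)
      rwa [sub_add_cancel] at this
    rw [abs_mul, abs_of_pos hHp] at h1
    linarith
  · have e1 : (x : ℝ) / y - t₀ = (x - H * t₀ - t₀ * (y - H)) / y := by
      field_simp
      ring
    rw [e1, abs_div, abs_of_pos hyp, div_lt_iff₀ hyp]
    calc |(x : ℝ) - H * t₀ - t₀ * (y - H)| ≤ |(x : ℝ) - H * t₀| + |(t₀ : ℝ) * (y - H)| := abs_sub _ _
      _ ≤ η₂ * H + |(t₀ : ℝ)| * (η₂ * H) := by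
        rw [abs_mul]
        exact add_le_add hxH (mul_le_mul_of_nonneg_left (abs_le.2 hyH) (abs_nonneg _))
      _ = η₂ * (1 + |(t₀ : ℝ)|) * H := by ring
      _ ≤ (η₁ / 4) * H := by
        apply mul_le_mul_of_nonneg_right _ hHp.le
        have h3 : (0 : ℝ) < 1 + |(t₀ : ℝ)| := by positivity
        calc η₂ * (1 + |(t₀ : ℝ)|) ≤ η₁ / (4 * (1 + |(t₀ : ℝ)|)) * (1 + |(t₀ : ℝ)|) :=
            mul_le_mul_of_nonneg_right hη₂2 h3.le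
          _ = η₁ / 4 := by field_simp
      _ < η₁ * y := by
        have h3 : η₁ * (H / 2) ≤ η₁ * y := mul_le_mul_of_nonneg_left hy1 hη₁.le
        have h4 : 0 < η₁ * H := mul_pos hη₁ hHp
        linarith

theorem short_vec (D : ℕ) (hD1 : 1 ≤ D) (ρ : ℤ) (m : ℝ) (hm : 0 ≤ m)
    (hDlow : ∀ x y : ℤ, (D : ℤ) ∣ x - ρ * y → ¬ (x = 0 ∧ y = 0) → m ≤ max |(x : ℝ)| |(y : ℝ)|)
    (z y : ℤ) (hzy : ¬ (z = 0 ∧ y = 0)) : m ^ 2 ≤ (nf D ρ z y : ℝ) := by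
  have hxy : ¬ ((D : ℤ) * z + ρ * y = 0 ∧ y = 0) := by
    rintro ⟨h3, h4⟩
    rw [h4, mul_zero, add_zero] at h3
    rcases mul_eq_zero.1 h3 with h5 | h5
    · have : D = 0 := by exact_mod_cast h5
      omega
    · exact hzy ⟨h5, h4⟩
  have h3 := hDlow (D * z + ρ * y) y (by rw [add_sub_cancel_right]; exact dvd_mul_right _ _) hxy
  have h4 : (nf D ρ z y : ℝ) = (((D : ℤ) * z + ρ * y : ℤ) : ℝ) ^ 2 + (y : ℝ) ^ 2 := by
    unfold nf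
    push_cast
    ring
  rw [h4]
  calc m ^ 2 ≤ (max |(((D : ℤ) * z + ρ * y : ℤ) : ℝ)| |(y : ℝ)|) ^ 2 :=
      pow_le_pow_left₀ hm h3 2
    _ ≤ _ := by
      rcases max_choice |(((D : ℤ) * z + ρ * y : ℤ) : ℝ)| |(y : ℝ)| with h5 | h5
      · rw [h5, sq_abs]
        exact le_add_of_nonneg_right (sq_nonneg _)
      · rw [h5, sq_abs]
        exact le_add_of_nonneg_left (sq_nonneg _)

/-- the size of the modulus -/
theorem size_D (κ τ : ℝ) (hκ0 : 0 ≤ κ) (hτ1 : τ < 1) (hκτ : κ * (1 - τ) < 1) (C₀ c C₆ T : ℝ)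
    (hC₀ : 0 < C₀) (hc : 0 < c) (hC₆ : 0 < C₆) (hT : 0 < T) :
    ∃ B₁ : ℝ, 1 ≤ B₁ ∧ ∀ B D : ℝ, B₁ ≤ B → 1 ≤ D → D ≤ C₆ * B ^ κ →
      C₀ * D ≤ B / T * (c * D ^ τ) := by
  obtain ⟨X₁, hX₁⟩ := pow_small (κ * (1 - τ)) 1 (c / (T * C₀ * C₆ ^ (1 - τ))) hκτ (by positivity)
  refine ⟨max X₁ 1, le_max_right _ _, fun B D hB hD1 hD => ?_⟩
  have hB1 : 1 ≤ B := (le_max_right _ _).trans hB
  have hB0 : 0 < B := by linarith
  have hXs := hX₁ B ((le_max_left _ _).trans hB)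
  rw [Real.rpow_one] at hXs
  have hD0 : 0 < D := by linarith
  have hDτ : D = D ^ (1 - τ) * D ^ τ := by
    rw [← Real.rpow_add hD0]
    simp
  have h4 : D ^ (1 - τ) ≤ C₆ ^ (1 - τ) * B ^ (κ * (1 - τ)) := by
    have h5 := Real.rpow_le_rpow hD0.le hD (by linarith : 0 ≤ 1 - τ)
    rwa [Real.mul_rpow (by positivity) (by positivity), ← Real.rpow_mul hB0.le] at h5
  have h6 : 0 < C₆ ^ (1 - τ) := by positivity
  have h3 : C₀ * D ^ (1 - τ) ≤ B / T * c := by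
    calc C₀ * D ^ (1 - τ) ≤ C₀ * (C₆ ^ (1 - τ) * B ^ (κ * (1 - τ))) :=
          mul_le_mul_of_nonneg_left h4 hC₀.le
      _ ≤ C₀ * (C₆ ^ (1 - τ) * (c / (T * C₀ * C₆ ^ (1 - τ)) * B)) :=
          mul_le_mul_of_nonneg_left (mul_le_mul_of_nonneg_left hXs h6.le) hC₀.le
      _ = B / T * c := by field_simp
  calc C₀ * D = (C₀ * D ^ (1 - τ)) * D ^ τ := by
        rw [mul_assoc, ← hDτ]
    _ ≤ (B / T * c) * D ^ τ := mul_le_mul_of_nonneg_right h3 (by positivity)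
    _ = B / T * (c * D ^ τ) := by ring

/-- the bound for the radical -/
theorem rad_fin (κ A T P Cg D B R V : ℝ) (q r : ℕ) (hrq : r ≤ q) (hκ0 : 0 ≤ κ) (hκq : κ ≤ q)
    (hA : 0 < A) (hT : 1 ≤ T) (hP : 0 < P) (hCg : 0 < Cg) (hB : 0 < B)
    (hDp : 0 < D) (hD : P * Cg * T ^ q / A * B ^ κ ≤ D)
    (y G : ℝ) (hy : 0 ≤ y) (hyB : y ≤ B) (hG : |G| ≤ Cg * B ^ r) (hV : B / T ≤ V)
    (hR : R * D ≤ y ^ (q - r) * P * |G|) : R ≤ A * V ^ ((q : ℝ) - κ) := by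
  have hT0 : 0 < T := by linarith
  have h1 : R * D ≤ P * Cg * B ^ q := by
    calc R * D ≤ y ^ (q - r) * P * |G| := hR
      _ ≤ B ^ (q - r) * P * (Cg * B ^ r) :=
        mul_le_mul (mul_le_mul_of_nonneg_right (pow_le_pow_left₀ hy hyB _) hP.le) hG
          (abs_nonneg _) (by positivity)
      _ = P * Cg * (B ^ (q - r) * B ^ r) := by ring
      _ = P * Cg * B ^ q := by rw [← pow_add, Nat.sub_add_cancel hrq]
  have h2 : A * (B / T) ^ ((q : ℝ) - κ) ≤ A * V ^ ((q : ℝ) - κ) :=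
    mul_le_mul_of_nonneg_left (Real.rpow_le_rpow (by positivity) hV (by linarith)) hA.le
  refine le_trans ?_ h2
  have h3 : P * Cg * B ^ q ≤ A * (B / T) ^ ((q : ℝ) - κ) * D := by
    have h4 : A * (B / T) ^ ((q : ℝ) - κ) * (P * Cg * T ^ q / A * B ^ κ) ≤
        A * (B / T) ^ ((q : ℝ) - κ) * D := mul_le_mul_of_nonneg_left hD (by positivity)
    refine le_trans ?_ h4
    rw [Real.div_rpow hB.le hT0.le, Real.rpow_sub hB, Real.rpow_natCast]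
    have h5 : T ^ ((q : ℝ) - κ) ≤ T ^ q := by
      rw [← Real.rpow_natCast]
      exact Real.rpow_le_rpow_of_exponent_le hT (by linarith)
    have h6 : 0 < T ^ ((q : ℝ) - κ) := by positivity
    have h7 : 0 < B ^ κ := by positivity
    have e : A * (B ^ q / B ^ κ / T ^ ((q : ℝ) - κ)) * (P * Cg * T ^ q / A * B ^ κ) =
        P * Cg * B ^ q * (T ^ q / T ^ ((q : ℝ) - κ)) := by
      field_simp
    rw [e]
    have h8 : 1 ≤ T ^ q / T ^ ((q : ℝ) - κ) := by rwa [one_le_div h6]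
    have h9 : 0 < P * Cg * B ^ q := by positivity
    exact le_mul_of_one_le_right h9.le h8
  have h4 := h1.trans h3
  exact le_of_mul_le_mul_right h4 hDp

theorem low (f : ℤ[X]) (q : ℕ) (hf : Squarefree (f.map (Int.castRingHom ℚ)))
    (hd2 : 2 ≤ f.natDegree) (hdq : f.natDegree ≤ q) (t₀ : ℚ) (h₀ : aeval (t₀ : ℝ) f ≠ 0)
    (Q : ℕ) (hQ : 1 ≤ Q) (η : ℝ) (hη : 0 < η) (κ : ℝ) (hκ0 : 0 ≤ κ) (hκ2 : κ < 2) (A : ℝ)
    (hA : 0 < A) :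
    ∃ c B₀ : ℝ, 0 < c ∧ ∀ B : ℝ, B₀ ≤ B → ∃ S : Finset (ℤ × ℤ), c * B ^ (2 - κ) ≤ (S.card : ℝ) ∧
      ∀ p ∈ S, IsCoprime p.1 p.2 ∧ 0 < p.2 ∧ |(p.1 : ℝ) / p.2 - t₀| < η ∧
        (Q : ℤ) ∣ p.1 - t₀.num ∧ (Q : ℤ) ∣ p.2 - t₀.den ∧
        max |(p.1 : ℝ)| |(p.2 : ℝ)| ≤ B ∧ fv q f p.1 p.2 ≠ 0 ∧
        (∏ l ∈ (fv q f p.1 p.2).natAbs.primeFactors, (l : ℝ)) ≤
          A * (max |(p.1 : ℝ)| |(p.2 : ℝ)|) ^ ((q : ℝ) - κ) := by
  set r := f.natDegree with hr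
  obtain ⟨τ, hτdef⟩ : ∃ τ : ℝ, τ = 1 / 2 - (2 - κ) / 8 := ⟨_, rfl⟩
  have hτ0 : 0 < τ := by linarith
  have hτ : τ < 1 / 2 := by linarith
  have hκτ : κ * (1 - τ) < 1 := by
    have h1 : 0 ≤ (2 - κ) ^ 2 := sq_nonneg _
    rw [hτdef]
    nlinarith
  obtain ⟨P, c, C', hPM, hP1, hc, hC', hsup⟩ := supply_of f hf hd2 τ hτ0 hτ Q hQ
  obtain ⟨η₁, hη₁, hη₁', hne⟩ := near_ne f h₀ η hη
  obtain ⟨η₂, hη₂⟩ : ∃ η₂ : ℝ, η₂ = min (1 / 2) (η₁ / (4 * (1 + |(t₀ : ℝ)|))) := ⟨_, rfl⟩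
  have hη₂0 : 0 < η₂ := by rw [hη₂]; positivity
  have hη₂1 : η₂ ≤ 1 / 2 := by rw [hη₂]; exact min_le_left _ _
  have hη₂2 : η₂ ≤ η₁ / (4 * (1 + |(t₀ : ℝ)|)) := by rw [hη₂]; exact min_le_right _ _
  obtain ⟨C₀, c₀, hC₀, hc₀, hlat⟩ := lat_count (Q * P) (Nat.mul_pos hQ hP1) t₀ 1 η₂ hη₂0
  obtain ⟨Cg, hCg⟩ : ∃ Cg : ℝ, Cg = (∑ i ∈ range (r + 1), |(f.coeff i : ℝ)|) + 1 := ⟨_, rfl⟩
  have hCgp : 0 < Cg := by
    have : (0 : ℝ) ≤ ∑ i ∈ range (r + 1), |(f.coeff i : ℝ)| := sum_nonneg fun i _ => abs_nonneg _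
    rw [hCg]
    positivity
  have hPp : (0 : ℝ) < P := by exact_mod_cast hP1
  obtain ⟨T, hT⟩ : ∃ T : ℝ, T = |(t₀ : ℝ)| + 2 := ⟨_, rfl⟩
  have ht0 : 0 ≤ |(t₀ : ℝ)| := abs_nonneg _
  have hT2 : 2 ≤ T := by rw [hT]; linarith
  obtain ⟨C₅, hC₅⟩ : ∃ C₅ : ℝ, C₅ = P * Cg * (2 * T) ^ q / A := ⟨_, rfl⟩
  have hC₅p : 0 < C₅ := by rw [hC₅]; positivity
  obtain ⟨C₆, hC₆⟩ : ∃ C₆ : ℝ, C₆ = C' * (C₅ + 1) := ⟨_, rfl⟩
  have hC₆p : 0 < C₆ := by rw [hC₆]; positivity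
  have hκq : κ ≤ q := by
    have : (2 : ℝ) ≤ q := by exact_mod_cast hd2.trans hdq
    linarith
  obtain ⟨B₁, hB₁1, hB₁⟩ := size_D κ τ hκ0 (by linarith) hκτ C₀ c C₆ T hC₀ hc hC₆p (by linarith)
  refine ⟨c₀ / (T ^ 2 * C₆), B₁, by positivity, fun B hB => ?_⟩
  have hB1 : 1 ≤ B := hB₁1.trans hB
  have hB0 : 0 < B := by linarith
  have hBκ : 1 ≤ B ^ κ := Real.one_le_rpow hB1 hκ0
  obtain ⟨D, ρ, hD1, hDD₀, hDC, hDP, hDdiv, hDlow⟩ := hsup (max 1 (C₅ * B ^ κ)) (le_max_left _ _)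
  have hD1R : (1 : ℝ) ≤ D := by exact_mod_cast hD1
  have hDlo : C₅ * B ^ κ ≤ D := (le_max_right _ _).trans hDD₀
  have hDup : (D : ℝ) ≤ C₆ * B ^ κ := by
    refine hDC.trans ?_
    rw [hC₆, mul_assoc]
    refine mul_le_mul_of_nonneg_left (max_le ?_ ?_) (by linarith)
    · have : 0 ≤ C₅ * B ^ κ := by positivity
      linarith
    · have : 0 ≤ B ^ κ := by positivity
      linarith
  obtain ⟨zs, ys, hcls, hcls2⟩ := exists_class Q P D hPM hDP ρ t₀.num t₀.den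
    (by rw [Int.isCoprime_iff_gcd_eq_one]; exact t₀.reduced)
  obtain ⟨H, hH⟩ : ∃ H : ℝ, H = B / T := ⟨_, rfl⟩
  have hHp : 0 < H := by rw [hH]; positivity
  have hHT : T * H = B := by rw [hH]; field_simp
  obtain ⟨PP, hPPc, hPP⟩ := hlat D ρ zs ys (c * (D : ℝ) ^ τ) H hD1 (by positivity) hHp hcls
    (fun z y hzy => short_vec D hD1 ρ _ (by positivity) hDlow z y hzy)
    (by rw [hH]; exact hB₁ B D hB hD1R hDup)
  refine ⟨PP, ?_, ?_⟩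
  · refine le_trans ?_ hPPc
    have h1 : B ^ (2 - κ) = B ^ 2 / B ^ κ := by
      rw [Real.rpow_sub hB0]
      norm_num
    rw [h1, hH]
    have e : c₀ / (T ^ 2 * C₆) * (B ^ 2 / B ^ κ) = c₀ * (B / T) ^ 2 / (C₆ * B ^ κ) := by
      field_simp
    rw [e]
    exact div_le_div_of_nonneg_left (by positivity) (by linarith) hDup
  · rintro ⟨x, y⟩ hp
    obtain ⟨z, hx, hzy, hzs, hys, hxH, hyH⟩ := hPP (x, y) hp
    simp only at hx hzy hys hxH hyH ⊢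
    obtain ⟨hxy, hxM, hyM⟩ := hcls2 x y z hx hzy hzs hys
    rw [mul_one] at hyH
    obtain ⟨hy1, hy2, hx1, ht⟩ := near_quot x y t₀ η₁ η₂ H hη₁ hη₂1 hη₂2 hHp hxH hyH
    have hyp : (0 : ℝ) < y := by linarith
    have hy0 : 0 < y := by exact_mod_cast hyp
    have hyne : y ≠ 0 := hy0.ne'
    have hyabs : |(y : ℝ)| = y := abs_of_pos hyp
    have hxB : |(x : ℝ)| ≤ B := by rw [← hHT, hT]; exact hx1
    have hyB : (y : ℝ) ≤ B := by
      rw [← hHT]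
      exact hy2.trans (mul_le_mul_of_nonneg_right hT2 hHp.le)
    have hmax : max |(x : ℝ)| |(y : ℝ)| ≤ B := max_le hxB (by rw [hyabs]; exact hyB)
    have hGne : fv r f x y ≠ 0 := by
      intro h3
      apply hne _ ht
      have h5 : (fv r f x y : ℝ) = (y : ℝ) ^ r * aeval ((x : ℝ) / y) f := fv_eq le_rfl hyp.ne'
      rw [h3, Int.cast_zero] at h5
      exact (mul_eq_zero.1 h5.symm).resolve_left (pow_ne_zero _ hyp.ne')
    have hFne : fv q f x y ≠ 0 := by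
      rw [fv_ext f r q le_rfl hdq x y hyne]
      exact mul_ne_zero (pow_ne_zero _ hyne) hGne
    refine ⟨hxy, hy0, ht.trans_le hη₁', hxM, hyM, hmax, hFne, ?_⟩
    have hdvd := hDdiv x y hyne (by rw [hx, add_sub_cancel_right]; exact dvd_mul_right _ _)
    have h3 := rad_bd P D y (fv r f x y) (by exact_mod_cast (by omega : P ≠ 0)) hyne hGne hdvd
      (fun p hp hpd => by
        have := hDP p hp (by exact_mod_cast hpd)
        exact_mod_cast this) (q - r)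
    rw [← fv_ext f r q le_rfl hdq x y hyne] at h3
    push_cast at h3
    rw [hyabs, Nat.abs_cast, Nat.abs_cast] at h3
    refine rad_fin κ A (2 * T) P Cg D B _ _ q r hdq hκ0 hκq hA (by linarith) hPp hCgp hB0
      (by linarith) (by rw [← hC₅]; exact hDlo) y (fv r f x y) hyp.le hyB ?_ ?_ h3
    · refine (fv_le _ _ _ _).trans ?_
      rw [hCg]
      refine mul_le_mul (by linarith) (pow_le_pow_left₀ (le_max_of_le_left (abs_nonneg _)) hmax _)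
        (by positivity) ?_
      rw [← hCg]
      exact hCgp.le
    · refine le_trans ?_ (le_max_right _ _)
      rw [hyabs]
      refine le_trans (le_of_eq ?_) hy1
      rw [hH]
      field_simp

end Pool.Agent.H461.Low
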