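import Pool.Agent.H461.Blk.Fact

/-!
# Values of forms with a divisor in a given range
-/

set_option autoImplicit false

namespace Pool.Agent.H461.Low

open Finset Polynomial Pool.Agent.W4.CF Pool.Agent.W4.VC Pool.Agent.TH498.KB

/-- a divisor in a given range, or a large prime factor -/
theorem sel (r : ℕ) (hr : 1 ≤ r) (R T : ℝ) (hR : R ≤ r) (hT : 1 ≤ T) :
    (∃ d : ℕ, d ∣ r ∧ R ≤ d ∧ (d : ℝ) ≤ max 1 R * T) ∨ ∃ p : ℕ, p.Prime ∧ p ∣ r ∧ T < p := by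
  classical
  by_cases h : ∀ p : ℕ, p.Prime → p ∣ r → (p : ℝ) ≤ T
  · left
    have hex : ∃ d : ℕ, d ∣ r ∧ R ≤ d := ⟨r, dvd_rfl, hR⟩
    obtain ⟨d, hdef⟩ : ∃ d : ℕ, d = Nat.find hex := ⟨_, rfl⟩
    obtain ⟨hd1, hd2⟩ := Nat.find_spec hex
    rw [← hdef] at hd1 hd2
    refine ⟨d, hd1, hd2, ?_⟩
    have hmax : (1 : ℝ) ≤ max 1 R := le_max_left _ _
    rcases eq_or_ne d 1 with h1 | h1
    · rw [h1]
      push_cast
      nlinarith
    · obtain ⟨p, hp, e, he⟩ := Nat.exists_prime_and_dvd h1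
      have hd0 : d ≠ 0 := by
        rintro rfl
        exact (by omega : r ≠ 0) (zero_dvd_iff.mp hd1)
      have he0 : e ≠ 0 := by
        rintro rfl
        rw [mul_zero] at he
        exact hd0 he
      have hlt : e < d := by
        rw [he]
        have := hp.two_le
        nlinarith [Nat.pos_of_ne_zero he0]
      have hnot : ¬ (e ∣ r ∧ R ≤ (e : ℝ)) := Nat.find_min hex (by rw [← hdef]; exact hlt)
      have hedvd : e ∣ r := (Dvd.intro_left p he.symm).trans hd1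
      have heR : (e : ℝ) < R := by
        by_contra hcon
        exact hnot ⟨hedvd, not_lt.mp hcon⟩
      have hpT : (p : ℝ) ≤ T := h p hp ((Dvd.intro e he.symm).trans hd1)
      rw [he]
      push_cast
      calc (p : ℝ) * e ≤ T * R :=
            mul_le_mul hpT heR.le (Nat.cast_nonneg _) (by linarith)
        _ = R * T := mul_comm _ _
        _ ≤ max 1 R * T := mul_le_mul_of_nonneg_right (le_max_right _ _) (by linarith)
  · right
    push Not at h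
    obtain ⟨p, hp, hpr, hpT⟩ := h
    exact ⟨p, hp, hpr, hpT⟩

theorem radp_one_eq (n : ℕ) : radp 1 n = ∏ p ∈ n.primeFactors, p := by
  unfold radp
  rw [filter_true_of_mem]
  intro p hp h1
  exact (Nat.prime_of_mem_primeFactors hp).one_lt.ne' (Nat.dvd_one.mp h1)

theorem radp_one_dvd (n : ℕ) : radp 1 n ∣ n := by
  rw [radp_one_eq]
  exact Nat.prod_primeFactors_dvd n

theorem radp_one_le (m n : ℕ) (hm : m ≠ 0) : radp 1 n ≤ m * radp m n := by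
  rw [radp_one_eq]
  unfold radp
  rw [← prod_filter_mul_prod_filter_not n.primeFactors (fun p => p ∣ m)]
  refine Nat.mul_le_mul_right _ ?_
  refine Nat.le_of_dvd (Nat.pos_of_ne_zero hm) ?_
  refine (prod_dvd_prod_of_subset _ _ _ ?_).trans (Nat.prod_primeFactors_dvd m)
  intro p hp
  rw [mem_filter] at hp
  exact Nat.mem_primeFactors.mpr ⟨Nat.prime_of_mem_primeFactors hp.1, hp.2, hm⟩

theorem radp_one_mono {d n : ℕ} (h : d ∣ n) (hn : n ≠ 0) : radp 1 d ∣ radp 1 n := by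
  rw [radp_one_eq, radp_one_eq]
  exact prod_dvd_prod_of_subset _ _ _ (Nat.primeFactors_mono h hn)

theorem mul_radp_dvd {n d : ℕ} (hn : n ≠ 0) (h : d ∣ n / radp 1 n) : d * radp 1 d ∣ n := by
  have h1 : n / radp 1 n * radp 1 n = n := Nat.div_mul_cancel (radp_one_dvd n)
  have h2 : d ∣ n := h.trans (Dvd.intro _ h1)
  calc d * radp 1 d ∣ n / radp 1 n * radp 1 n := mul_dvd_mul h (radp_one_mono h2 hn)
    _ = n := h1

theorem case1 (f : ℤ[X]) (q : ℕ) (hq : 1 ≤ q) (hf : Sqf f q) (κ : ℝ) (hκ0 : 0 ≤ κ) (hκ : κ ≤ 2)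
    (A : ℝ) (hA : 0 < A) (ε : ℝ) (hε : 0 < ε) :
    ∃ C : ℝ, 0 < C ∧ ∀ Y : ℝ, 1 ≤ Y → ∀ s : Finset (ℤ × ℤ),
      (∀ p ∈ s, Dy Y p ∧ ∃ d : ℕ, 1 ≤ d ∧ (d : ℝ) ≤ Y ^ (2 - κ) ∧
        ((d * radp 1 d : ℕ) : ℤ) ∣ hom f q p.1 p.2 ∧
        |((hom f q p.1 p.2 : ℤ) : ℝ)| ≤ A * d * Y ^ ((q : ℝ) - κ)) →
      (s.card : ℝ) ≤ C * Y ^ (2 - κ + ε) := by
  classical
  obtain ⟨C₁, hC₁, h1⟩ := lat f q hf hq (ε / 6) (by positivity)
  obtain ⟨C₂, hC₂, h2⟩ := Pool.W335.CF.t_RAD (ε / 6) (by positivity)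
  refine ⟨C₁ * (A * C₂ + 1), by positivity, fun Y hY s hs => ?_⟩
  have hY0 : 0 < Y := by linarith
  obtain ⟨N, hN⟩ : ∃ N : ℕ, N = ⌊Y ^ (2 - κ)⌋₊ := ⟨_, rfl⟩
  have hYκ : 1 ≤ Y ^ (2 - κ) := Real.one_le_rpow hY (by linarith)
  have hNle : (N : ℝ) ≤ Y ^ (2 - κ) := by
    rw [hN]
    exact Nat.floor_le (by positivity)
  have hN1 : 1 ≤ N := by
    rw [hN]
    exact Nat.one_le_floor_iff _ |>.mpr hYκ
  have hY2 : Y ^ (2 - κ) ≤ Y ^ (2 : ℝ) := Real.rpow_le_rpow_of_exponent_le hY (by linarith)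
  -- the covering
  have hcover : s ⊆ (Icc 1 N).biUnion (fun d => s.filter (fun p =>
      ((d * radp 1 d : ℕ) : ℤ) ∣ hom f q p.1 p.2 ∧
        |((hom f q p.1 p.2 : ℤ) : ℝ)| ≤ A * d * Y ^ ((q : ℝ) - κ))) := by
    intro p hp
    obtain ⟨-, d, hd1, hd2, hd3, hd4⟩ := hs p hp
    rw [mem_biUnion]
    refine ⟨d, mem_Icc.mpr ⟨hd1, ?_⟩, mem_filter.mpr ⟨hp, hd3, hd4⟩⟩
    rw [hN]
    exact Nat.le_floor hd2
  have hone : ∀ d ∈ Icc 1 N, ((s.filter (fun p =>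
      ((d * radp 1 d : ℕ) : ℤ) ∣ hom f q p.1 p.2 ∧
        |((hom f q p.1 p.2 : ℤ) : ℝ)| ≤ A * d * Y ^ ((q : ℝ) - κ))).card : ℝ) ≤
      C₁ * Y ^ (4 * (ε / 6)) * (A * Y ^ (2 - κ) * (1 / (radp 1 d : ℝ)) + 1) := by
    intro d hd
    rw [mem_Icc] at hd
    have hd0 : (0 : ℝ) < d := by exact_mod_cast hd.1
    have hr0 : 0 < radp 1 d := Pool.W335.CF.radp_pos 1 d
    have hr0' : (0 : ℝ) < radp 1 d := by exact_mod_cast hr0
    have h3 := h1 Y (A * d * Y ^ ((q : ℝ) - κ)) (d * radp 1 d) hY (by positivity)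
      (Nat.mul_pos hd.1 hr0) (s.filter (fun p =>
      ((d * radp 1 d : ℕ) : ℤ) ∣ hom f q p.1 p.2 ∧
        |((hom f q p.1 p.2 : ℤ) : ℝ)| ≤ A * d * Y ^ ((q : ℝ) - κ))) (fun p hp => by
        rw [mem_filter] at hp
        exact ⟨(hs p hp.1).1, hp.2⟩)
    refine h3.trans ?_
    have e1 : A * d * Y ^ ((q : ℝ) - κ) * Y ^ 2 / (Y ^ q * ((d * radp 1 d : ℕ) : ℝ)) =
        A * Y ^ (2 - κ) * (1 / (radp 1 d : ℝ)) := by
      have e2 : Y ^ ((q : ℝ) - κ) * Y ^ 2 = Y ^ q * Y ^ (2 - κ) := by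
        rw [← Real.rpow_natCast Y q, ← Real.rpow_natCast Y 2, ← Real.rpow_add hY0,
          ← Real.rpow_add hY0]
        congr 1
        push_cast
        ring
      push_cast
      rw [mul_assoc (A * (d : ℝ)), e2]
      field_simp
    rw [e1]
    refine mul_le_mul_of_nonneg_right (mul_le_mul_of_nonneg_left ?_ hC₁.le) (by positivity)
    have h4 : ((d * radp 1 d : ℕ) : ℝ) ≤ Y ^ (4 : ℝ) := by
      have h5 : radp 1 d ≤ d := Nat.le_of_dvd hd.1 (radp_one_dvd d)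
      have h6 : (d : ℝ) ≤ Y ^ (2 : ℝ) :=
        ((by exact_mod_cast hd.2 : (d : ℝ) ≤ N)).trans (hNle.trans hY2)
      have h7 : (radp 1 d : ℝ) ≤ Y ^ (2 : ℝ) := (by exact_mod_cast h5 : (radp 1 d : ℝ) ≤ d).trans h6
      push_cast
      calc (d : ℝ) * radp 1 d ≤ Y ^ (2 : ℝ) * Y ^ (2 : ℝ) :=
            mul_le_mul h6 h7 hr0'.le (by positivity)
        _ = Y ^ (4 : ℝ) := by rw [← Real.rpow_add hY0]; norm_num
    calc ((d * radp 1 d : ℕ) : ℝ) ^ (ε / 6) ≤ (Y ^ (4 : ℝ)) ^ (ε / 6) :=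
          Real.rpow_le_rpow (Nat.cast_nonneg _) h4 (by positivity)
      _ = Y ^ (4 * (ε / 6)) := by rw [← Real.rpow_mul hY0.le]
  have hsum := h2 1 N le_rfl hN1
  have hNε : ((1 : ℕ) : ℝ) * N ≤ Y ^ (2 : ℝ) := by
    push_cast
    rw [one_mul]
    exact hNle.trans hY2
  have hsum2 : ∑ n ∈ Icc 1 N, (1 : ℝ) / (radp 1 n : ℝ) ≤ C₂ * Y ^ (2 * (ε / 6)) := by
    refine hsum.trans (mul_le_mul_of_nonneg_left ?_ hC₂.le)
    calc (((1 : ℕ) : ℝ) * N) ^ (ε / 6) ≤ (Y ^ (2 : ℝ)) ^ (ε / 6) :=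
          Real.rpow_le_rpow (by positivity) hNε (by positivity)
      _ = Y ^ (2 * (ε / 6)) := by rw [← Real.rpow_mul hY0.le]
  have hYε : 1 ≤ Y ^ (2 * (ε / 6)) := Real.one_le_rpow hY (by positivity)
  calc (s.card : ℝ) ≤ (((Icc 1 N).biUnion (fun d => s.filter (fun p =>
      ((d * radp 1 d : ℕ) : ℤ) ∣ hom f q p.1 p.2 ∧
        |((hom f q p.1 p.2 : ℤ) : ℝ)| ≤ A * d * Y ^ ((q : ℝ) - κ)))).card : ℝ) := by
        exact_mod_cast card_le_card hcover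
    _ ≤ ∑ d ∈ Icc 1 N, ((s.filter (fun p =>
      ((d * radp 1 d : ℕ) : ℤ) ∣ hom f q p.1 p.2 ∧
        |((hom f q p.1 p.2 : ℤ) : ℝ)| ≤ A * d * Y ^ ((q : ℝ) - κ))).card : ℝ) := by
        exact_mod_cast card_biUnion_le
    _ ≤ ∑ d ∈ Icc 1 N, C₁ * Y ^ (4 * (ε / 6)) * (A * Y ^ (2 - κ) * (1 / (radp 1 d : ℝ)) + 1) :=
        sum_le_sum hone
    _ = C₁ * Y ^ (4 * (ε / 6)) * (A * Y ^ (2 - κ) * (∑ d ∈ Icc 1 N, (1 : ℝ) / (radp 1 d : ℝ)) + N) := by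
        rw [← mul_sum, sum_add_distrib, ← mul_sum, sum_const, Nat.card_Icc, nsmul_eq_mul, mul_one]
        simp
    _ ≤ C₁ * Y ^ (4 * (ε / 6)) * (A * Y ^ (2 - κ) * (C₂ * Y ^ (2 * (ε / 6))) +
          Y ^ (2 - κ) * Y ^ (2 * (ε / 6))) := by
        refine mul_le_mul_of_nonneg_left (add_le_add ?_ ?_) (by positivity)
        · exact mul_le_mul_of_nonneg_left hsum2 (by positivity)
        · exact hNle.trans (le_mul_of_one_le_right (by positivity) hYε)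
    _ = C₁ * (A * C₂ + 1) * Y ^ (2 - κ + ε) := by
        have e : Y ^ (2 - κ + ε) = Y ^ (4 * (ε / 6)) * (Y ^ (2 - κ) * Y ^ (2 * (ε / 6))) := by
          rw [← Real.rpow_add hY0, ← Real.rpow_add hY0]
          congr 1
          ring
        rw [e]
        ring

end Pool.Agent.H461.Low
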