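import Pool.Agent.H461.Low.Case1

/-!
# Values of forms divisible by the square of a large prime
-/

set_option autoImplicit false

namespace Pool.Agent.H461.Low

open Finset Polynomial UniqueFactorizationMonoid Pool.Agent.W4.CF Pool.Agent.W4.VC
open Pool.Agent.TH498.KB Pool.Agent.H461.Blk

/-- the factorization of a form over the rational numbers -/
theorem fact_list (f : ℤ[X]) (q : ℕ) (hf : Sqf f q) :
    ∃ (n : ℕ) (g : Fin n → ℤ[X]) (d : Fin n → ℕ) (c c' : ℤ), c ≠ 0 ∧ c' ≠ 0 ∧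
      C c * f = C c' * ∏ i, g i ∧ ∑ i, d i = q ∧ Sqf (∏ i, g i) (∑ i, d i) ∧
      ∀ i, ((g i).natDegree = d i ∧ Irreducible (toQ (g i)) ∧ toQ (g i) ∣ toQ f) ∨
        (g i = 1 ∧ d i = 1) := by
  classical
  have hP0 : toQ f ≠ 0 := hf.1.ne_zero
  set S : Multiset ℚ[X] := normalizedFactors (toQ f) with hS
  have hirr : ∀ p ∈ S, Irreducible p := fun p hp => irreducible_of_normalized_factor p hp
  obtain ⟨u, hu⟩ := prod_normalizedFactors hP0
  rw [← hS] at hu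
  obtain ⟨t, ht, hut⟩ := Polynomial.isUnit_iff.mp u.isUnit
  have ht0 : t ≠ 0 := ht.ne_zero
  rw [← hut] at hu
  choose G cc hcc hG using exists_int
  have hGd : ∀ p, (G p).natDegree = p.natDegree := by
    intro p
    rw [← toQ_natDegree, hG p, natDegree_C_mul (by exact_mod_cast hcc p)]
  set l := S.toList with hl
  have hmem : ∀ i : Fin l.length, l[i.1] ∈ S := by
    intro i
    exact Multiset.mem_toList.mp (List.getElem_mem _)
  set e : ℕ := q - f.natDegree with he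
  set g : Fin (l.length + e) → ℤ[X] :=
    Fin.append (fun i : Fin l.length => G l[i.1]) (fun _ : Fin e => 1) with hg
  set d : Fin (l.length + e) → ℕ :=
    Fin.append (fun i : Fin l.length => l[i.1].natDegree) (fun _ : Fin e => 1) with hd
  -- products
  have hprod : toQ (∏ i, g i) = C (((S.map cc).prod : ℤ) : ℚ) * S.prod := by
    have e2 : ∏ i, g i = (S.map G).prod := by
      rw [hg, Fin.prod_univ_add]
      simp only [Fin.append_left, Fin.append_right, prod_const_one, mul_one]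
      rw [Fin.prod_univ_fun_getElem l G, ← Multiset.prod_coe, ← Multiset.map_coe,
        hl, Multiset.coe_toList]
    rw [e2]
    have e3 : toQ (S.map G).prod = (S.map (fun p => toQ (G p))).prod := by
      show (Polynomial.mapRingHom (Int.castRingHom ℚ)) (S.map G).prod = _
      rw [map_multiset_prod, Multiset.map_map]
      rfl
    have e4 : (S.map (fun p => toQ (G p))).prod = (S.map (fun p => C (cc p : ℚ) * p)).prod := by
      congr 1
      exact Multiset.map_congr rfl fun p _ => hG p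
    rw [e3, e4, Multiset.prod_map_mul, Multiset.map_id']
    congr 1
    have e5 : (((S.map cc).prod : ℤ) : ℚ) = (S.map (fun p => (cc p : ℚ))).prod := by
      rw [← eq_intCast (Int.castRingHom ℚ), map_multiset_prod, Multiset.map_map]
      rfl
    rw [e5, map_multiset_prod, Multiset.map_map]
    rfl
  set R : ℤ := (S.map cc).prod with hR
  have hR0 : R ≠ 0 := by
    rw [hR]
    apply Multiset.prod_ne_zero
    intro h0
    obtain ⟨p, -, hp⟩ := Multiset.mem_map.mp h0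
    exact hcc p hp
  set FF : ℤ[X] := ∏ i, g i with hFF
  have hrel : C ((t.den : ℤ) * R) * f = C t.num * FF := by
    apply toQ_inj
    rw [toQ_mul, toQ_mul, toQ_C, toQ_C, hprod, ← hu]
    have e6 : (((t.den : ℤ) * R : ℤ) : ℚ) * t = (t.num : ℚ) * (R : ℚ) := by
      push_cast
      have := Rat.mul_den_eq_num t
      calc (t.den : ℚ) * R * t = (t * t.den) * R := by ring
        _ = _ := by rw [this]
    calc C (((t.den : ℤ) * R : ℤ) : ℚ) * (S.prod * C t) =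
          C ((((t.den : ℤ) * R : ℤ) : ℚ) * t) * S.prod := by rw [C_mul]; ring
      _ = C ((t.num : ℚ) * (R : ℚ)) * S.prod := by rw [e6]
      _ = _ := by rw [C_mul]; ring
  have hden : ((t.den : ℤ) * R) ≠ 0 := mul_ne_zero (by exact_mod_cast t.den_nz) hR0
  have hnum : t.num ≠ 0 := Rat.num_ne_zero.mpr ht0
  have hFFd : FF.natDegree = f.natDegree := by
    rw [← natDegree_C_mul hnum, ← hrel, natDegree_C_mul hden]
  have hsum0 : (S.map natDegree).sum = f.natDegree := by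
    have e1 : S.prod.natDegree = (S.map natDegree).sum :=
      natDegree_multiset_prod _ (zero_notMem_normalizedFactors (toQ f))
    rw [← e1, ← toQ_natDegree f, ← hu, mul_comm, natDegree_C_mul ht0]
  have hsum : ∑ i, d i = q := by
    rw [hd, Fin.sum_univ_add]
    simp only [Fin.append_left, Fin.append_right, sum_const, card_univ, Fintype.card_fin,
      smul_eq_mul, mul_one]
    have h1 : ∑ i : Fin l.length, natDegree l[i.1] = (S.map natDegree).sum := by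
      rw [Fin.sum_univ_fun_getElem l natDegree, ← Multiset.sum_coe, ← Multiset.map_coe,
        hl, Multiset.coe_toList]
    rw [h1, hsum0]
    have h2 := hf.2.1
    omega
  have hsq : Sqf FF q := by
    refine ⟨?_, by rw [hFFd]; exact hf.2.1, by rw [hFFd]; exact hf.2.2⟩
    have hass : Associated (toQ f) (toQ FF) := by
      rw [hprod, ← hu]
      have hu1 : IsUnit (C t : ℚ[X]) := (isUnit_iff_ne_zero.mpr ht0).map C
      have hu2 : IsUnit (C (R : ℚ) : ℚ[X]) :=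
        (isUnit_iff_ne_zero.mpr (by exact_mod_cast hR0)).map C
      exact (associated_mul_unit_left _ _ hu1).trans (associated_unit_mul_right _ _ hu2)
    exact hass.squarefree_iff.mp hf.1
  refine ⟨l.length + e, g, d, (t.den : ℤ) * R, t.num, hden, hnum, hrel, hsum,
    by rw [hsum]; exact hsq, ?_⟩
  intro i
  refine Fin.addCases (fun i => ?_) (fun i => ?_) i
  · left
    rw [hg, hd, Fin.append_left, Fin.append_left]
    have hu2 : IsUnit (C (cc l[i.1] : ℚ) : ℚ[X]) :=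
      (isUnit_iff_ne_zero.mpr (by exact_mod_cast hcc _)).map C
    have hass : Associated l[i.1] (toQ (G l[i.1])) := by
      rw [hG]
      exact associated_unit_mul_right _ _ hu2
    refine ⟨hGd _, hass.irreducible (hirr _ (hmem i)), ?_⟩
    exact hass.symm.dvd.trans (dvd_of_mem_normalizedFactors (hmem i))
  · right
    rw [hg, hd, Fin.append_right, Fin.append_right]
    exact ⟨rfl, rfl⟩

/-- the square of a large prime divides the value of one factor -/
theorem big_sq {n : ℕ} (g : Fin n → ℤ[X]) (d : Fin n → ℕ) (hd : ∀ k, (g k).natDegree ≤ d k)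
    (hsq : Sqf (∏ k, g k) (∑ k, d k)) :
    ∃ M : ℕ, 1 ≤ M ∧ ∀ a b : ℤ, IsCoprime a b → ∀ p : ℕ, p.Prime → ¬ p ∣ M →
      (p : ℤ) ^ 2 ∣ ∏ k, hom (g k) (d k) a b → ∃ k, (p : ℤ) ^ 2 ∣ hom (g k) (d k) a b := by
  classical
  have hsub : ∀ J : Finset (Fin n), ∃ M : ℕ, 1 ≤ M ∧
      ∀ a b : ℤ, IsCoprime a b → ∀ p : ℕ, p.Prime →
        (p : ℤ) ∣ ∏ k ∈ J, hom (g k) (d k) a b → (p : ℤ) ∣ ∏ k ∈ Jᶜ, hom (g k) (d k) a b →
        p ∣ M := by
    intro J
    have h1 : (∏ k ∈ J, g k) * (∏ k ∈ Jᶜ, g k) = ∏ k, g k := prod_mul_prod_compl J g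
    have h2 : (∑ k ∈ J, d k) + (∑ k ∈ Jᶜ, d k) = ∑ k, d k := sum_add_sum_compl J d
    have hp := fun (K : Finset (Fin n)) (a b : ℤ) => hom_prod K g d (fun i _ => hd i) a b
    have h3 := Pool.Agent.W290.VC.t_RES (∏ k ∈ J, g k) (∏ k ∈ Jᶜ, g k) (∑ k ∈ J, d k)
      (∑ k ∈ Jᶜ, d k) (hp J 0 0).1 (hp Jᶜ 0 0).1 (by rw [h1, h2]; exact hsq)
    obtain ⟨a1, -, M, hM, h4⟩ := h3
    refine ⟨M, hM, ?_⟩
    intro a b hab p hpp x1 x2
    rw [← (hp J a b).2] at x1
    rw [← (hp Jᶜ a b).2] at x2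
    exact h4 a b hab p hpp x1 x2
  choose M hM hMp using hsub
  refine ⟨∏ k : Fin n, M {k}, ?_, ?_⟩
  · exact Nat.one_le_iff_ne_zero.mpr (prod_ne_zero_iff.mpr fun k _ => by
      have := hM {k}
      omega)
  intro a b hab p hp hpM hdvd
  have hpI : Prime (p : ℤ) := Nat.prime_iff_prime_int.mp hp
  obtain ⟨k, -, hk⟩ := (Prime.dvd_finsetProd_iff hpI _).mp ((dvd_pow_self _ two_ne_zero).trans hdvd)
  refine ⟨k, ?_⟩
  have hnot : ¬ (p : ℤ) ∣ ∏ l ∈ ({k} : Finset (Fin n))ᶜ, hom (g l) (d l) a b := by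
    intro h2
    apply hpM
    exact (hMp {k} a b hab p hp (by rw [prod_singleton]; exact hk) h2).trans
      (dvd_prod_of_mem (fun k => M {k}) (mem_univ k))
  have h3 : ∏ l, hom (g l) (d l) a b =
      hom (g k) (d k) a b * ∏ l ∈ ({k} : Finset (Fin n))ᶜ, hom (g l) (d l) a b := by
    rw [← prod_mul_prod_compl {k}, prod_singleton]
  rw [h3] at hdvd
  have h4 : IsCoprime ((p : ℤ) ^ 2) (∏ l ∈ ({k} : Finset (Fin n))ᶜ, hom (g l) (d l) a b) :=
    ((Prime.coprime_iff_not_dvd hpI).mpr hnot).pow_left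
  exact h4.dvd_of_dvd_mul_right hdvd

/-- the radical of a number divisible by the square of a prime -/
theorem radp_sq (m n p : ℕ) (hn : n ≠ 0) (hp : p.Prime) (h : p ^ 2 ∣ n) :
    radp m n * p ≤ n := by
  have h1 : radp m n ≤ radp 1 n := by
    rw [radp_one_eq]
    unfold radp
    exact prod_le_prod_of_subset_of_one_le' (filter_subset _ _)
      fun p hp _ => (Nat.prime_of_mem_primeFactors hp).one_lt.le
  obtain ⟨k, hk⟩ := h
  have hk0 : k ≠ 0 := by
    rintro rfl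
    rw [mul_zero] at hk
    exact hn hk
  have h2 : radp 1 n ≤ p * k := by
    rw [radp_one_eq]
    have h3 : n.primeFactors = (p * k).primeFactors := by
      rw [hk, Nat.primeFactors_mul (pow_ne_zero _ hp.ne_zero) hk0,
        Nat.primeFactors_mul hp.ne_zero hk0, Nat.primeFactors_pow _ two_ne_zero]
    rw [h3]
    exact Nat.le_of_dvd (Nat.mul_pos hp.pos (Nat.pos_of_ne_zero hk0)) (Nat.prod_primeFactors_dvd _)
  calc radp m n * p ≤ (p * k) * p := Nat.mul_le_mul_right _ (h1.trans h2)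
    _ = n := by rw [hk]; ring

/-- boxes are finite -/
theorem box_card (s : Finset (ℤ × ℤ)) (Z : ℕ)
    (h : ∀ p ∈ s, |(p.1 : ℝ)| ≤ Z ∧ |(p.2 : ℝ)| ≤ Z) : (s.card : ℝ) ≤ (2 * (Z : ℝ) + 1) ^ 2 := by
  have hsub : s ⊆ Icc (-(Z : ℤ)) Z ×ˢ Icc (-(Z : ℤ)) Z := by
    intro p hp
    obtain ⟨h1, h2⟩ := h p hp
    rw [mem_product, mem_Icc, mem_Icc]
    have h3 : |p.1| ≤ (Z : ℤ) := by exact_mod_cast h1
    have h4 : |p.2| ≤ (Z : ℤ) := by exact_mod_cast h2
    exact ⟨abs_le.mp h3, abs_le.mp h4⟩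
  have h1 := card_le_card hsub
  rw [card_product, Int.card_Icc] at h1
  have h2 : ((Z : ℤ) + 1 - -(Z : ℤ)).toNat = 2 * Z + 1 := by omega
  rw [h2] at h1
  have h3 : (s.card : ℝ) ≤ (((2 * Z + 1) * (2 * Z + 1) : ℕ) : ℝ) := by exact_mod_cast h1
  push_cast at h3
  linarith

/-- one factor of degree at most three -/
theorem one_fac (g : ℤ[X]) (d : ℕ)
    (hg : (g.natDegree = d ∧ Irreducible (toQ g) ∧ d ≤ 3) ∨ (g = 1 ∧ d = 1))
    (κ : ℝ) (hκ0 : 0 ≤ κ) (hκ : κ ≤ 2 / 3) (ε : ℝ) (hε : 0 < ε) :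
    ∃ C Y₀ : ℝ, 0 < C ∧ ∀ Y : ℝ, 1 ≤ Y → Y₀ ≤ Y → ∀ s : Finset (ℤ × ℤ),
      (∀ p ∈ s, Dy Y p ∧ hom g d p.1 p.2 ≠ 0 ∧ ∃ l : ℕ, l.Prime ∧ Y ^ (2 - κ) < (l : ℝ) ∧
        (l : ℤ) ^ 2 ∣ hom g d p.1 p.2) →
      (s.card : ℝ) ≤ C * Y ^ (2 - κ + ε) := by
  classical
  obtain ⟨Cg, hCg, hsize⟩ := Pool.Agent.W505.VC.t_HOM.2.1 g d
  have hd3 : d ≤ 3 := by
    rcases hg with hg | hg
    · exact hg.2.2
    · omega
  -- the size of the value
  have hval : ∀ Y : ℝ, 1 ≤ Y → ∀ p : ℤ × ℤ, Dy Y p → hom g d p.1 p.2 ≠ 0 → ∀ l : ℕ, l.Prime →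
      Y ^ (2 - κ) < (l : ℝ) → (l : ℤ) ^ 2 ∣ hom g d p.1 p.2 →
      ((radp 1 (hom g d p.1 p.2).natAbs : ℕ) : ℝ) * Y ^ (2 - κ) ≤ Cg * Y ^ d ∧
      Y ^ (2 - κ) * Y ^ (2 - κ) ≤ Cg * Y ^ d := by
    intro Y hY p hp h0 l hl hlY hdvd
    have hY0 : 0 < Y := by linarith
    obtain ⟨-, hp1, hp2, -⟩ := hp
    have h1 := hsize p.1 p.2
    have h2 : |((hom g d p.1 p.2 : ℤ) : ℝ)| ≤ Cg * Y ^ d :=
      h1.trans (mul_le_mul_of_nonneg_left (pow_le_pow_left₀ (le_max_of_le_left (abs_nonneg _))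
        (max_le hp1 hp2) _) (by linarith))
    have h3 : (((hom g d p.1 p.2).natAbs : ℕ) : ℝ) = |((hom g d p.1 p.2 : ℤ) : ℝ)| := by
      rw [Nat.cast_natAbs, Int.cast_abs]
    have hn0 : (hom g d p.1 p.2).natAbs ≠ 0 := Int.natAbs_ne_zero.mpr h0
    have hdvd' : l ^ 2 ∣ (hom g d p.1 p.2).natAbs := by
      have := Int.natAbs_dvd_natAbs.mpr hdvd
      rwa [Int.natAbs_pow, Int.natAbs_natCast] at this
    have h4 := radp_sq 1 _ l hn0 hl hdvd'
    have h5 : ((radp 1 (hom g d p.1 p.2).natAbs : ℕ) : ℝ) * l ≤ Cg * Y ^ d := by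
      have : ((radp 1 (hom g d p.1 p.2).natAbs * l : ℕ) : ℝ) ≤
        (((hom g d p.1 p.2).natAbs : ℕ) : ℝ) := by exact_mod_cast h4
      rw [h3] at this
      push_cast at this
      linarith
    have h6 : ((l ^ 2 : ℕ) : ℝ) ≤ (((hom g d p.1 p.2).natAbs : ℕ) : ℝ) := by
      exact_mod_cast Nat.le_of_dvd (Nat.pos_of_ne_zero hn0) hdvd'
    have hYp : 0 < Y ^ (2 - κ) := by positivity
    refine ⟨(mul_le_mul_of_nonneg_left hlY.le (Nat.cast_nonneg _)).trans h5, ?_⟩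
    rw [h3] at h6
    push_cast at h6
    have h7 : Y ^ (2 - κ) * Y ^ (2 - κ) ≤ (l : ℝ) ^ 2 := by
      rw [pow_two]
      exact mul_le_mul hlY.le hlY.le hYp.le (Nat.cast_nonneg _)
    linarith
  by_cases hd : d ≤ 2
  · -- no such points
    refine ⟨1, (Cg + 1) ^ (2 : ℝ), one_pos, fun Y hY hY₀ s hs => ?_⟩
    have hY0 : 0 < Y := by linarith
    have hse : s = ∅ := by
      rw [eq_empty_iff_forall_notMem]
      intro p hp
      obtain ⟨h1, h2, l, hl, hlY, hdvd⟩ := hs p hp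
      have h3 := (hval Y hY p h1 h2 l hl hlY hdvd).2
      have h4 : Y ^ (2 - κ) * Y ^ (2 - κ) = Y ^ (2 - 2 * κ) * Y ^ 2 := by
        rw [← Real.rpow_natCast Y 2, ← Real.rpow_add hY0, ← Real.rpow_add hY0]
        congr 1
        push_cast
        ring
      have h5 : Y ^ d ≤ Y ^ 2 := pow_le_pow_right₀ hY hd
      have h6 : Cg + 1 ≤ Y ^ (2 - 2 * κ) := by
        calc Cg + 1 = ((Cg + 1) ^ (2 : ℝ)) ^ ((1 : ℝ) / 2) := by
              rw [← Real.rpow_mul (by linarith)]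
              norm_num
          _ ≤ Y ^ ((1 : ℝ) / 2) := Real.rpow_le_rpow (by positivity) hY₀ (by norm_num)
          _ ≤ Y ^ (2 - 2 * κ) := Real.rpow_le_rpow_of_exponent_le hY (by linarith)
      rw [h4] at h3
      have h7 : 0 < Y ^ 2 := by positivity
      nlinarith
    rw [hse, card_empty]
    push_cast
    positivity
  · -- a cubic factor
    have hd' : d = 3 := by omega
    subst hd'
    obtain ⟨hg1, hg2, -⟩ : g.natDegree = 3 ∧ Irreducible (toQ g) ∧ 3 ≤ 3 := by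
      rcases hg with hg | hg
      · exact hg
      · omega
    obtain ⟨D, hD, hb⟩ := bdd_cubic g hg1 hg2 ε hε
    refine ⟨D * Cg, 1, by positivity, fun Y hY _ s hs => ?_⟩
    have hY0 : 0 < Y := by linarith
    have h1 := hb 1 Y (Cg * Y ^ (1 + κ)) le_rfl hY (by
      have : 1 ≤ Y ^ (1 + κ) := Real.one_le_rpow hY (by linarith)
      nlinarith) s (fun p hp => by
      obtain ⟨h1, h2, l, hl, hlY, hdvd⟩ := hs p hp
      refine ⟨h1.1, h1.2.1, h1.2.2.1, h2, ?_⟩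
      have h3 := (hval Y hY p h1 h2 l hl hlY hdvd).1
      have hYp : 0 < Y ^ (2 - κ) := by positivity
      have h4 : Cg * Y ^ 3 = Cg * Y ^ (1 + κ) * Y ^ (2 - κ) := by
        rw [mul_assoc, ← Real.rpow_add hY0, ← Real.rpow_natCast Y 3]
        congr 2
        push_cast
        ring
      rw [h4] at h3
      exact le_of_mul_le_mul_right h3 hYp)
    refine h1.trans ?_
    rw [Nat.cast_one, one_mul, Real.mul_rpow (by linarith) (by positivity), ← Real.rpow_mul hY0.le]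
    have h2 : Cg ^ ((1 : ℝ) / (3 / 2)) ≤ Cg := by
      calc Cg ^ ((1 : ℝ) / (3 / 2)) ≤ Cg ^ (1 : ℝ) :=
            Real.rpow_le_rpow_of_exponent_le hCg (by norm_num)
        _ = Cg := Real.rpow_one _
    have h3 : Y ^ ε * Y ^ ((1 + κ) * (1 / (3 / 2))) ≤ Y ^ (2 - κ + ε) := by
      rw [← Real.rpow_add hY0]
      apply Real.rpow_le_rpow_of_exponent_le hY
      have : (1 + κ) * (1 / (3 / 2)) ≤ 2 - κ := by
        norm_num
        linarith
      linarith
    calc D * Y ^ ε * (Cg ^ ((1 : ℝ) / (3 / 2)) * Y ^ ((1 + κ) * (1 / (3 / 2)))) =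
          (D * Cg ^ ((1 : ℝ) / (3 / 2))) * (Y ^ ε * Y ^ ((1 + κ) * (1 / (3 / 2)))) := by ring
      _ ≤ (D * Cg) * Y ^ (2 - κ + ε) :=
        mul_le_mul (mul_le_mul_of_nonneg_left h2 hD.le) h3 (by positivity) (by positivity)

/-- **Values divisible by the square of a large prime.** -/
theorem case2 (f : ℤ[X]) (q : ℕ) (hf : Sqf f q)
    (h3 : ∀ p : ℚ[X], Irreducible p → p ∣ toQ f → p.natDegree ≤ 3)
    (κ : ℝ) (hκ0 : 0 ≤ κ) (hκ : κ ≤ 2 / 3) (ε : ℝ) (hε : 0 < ε) :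
    ∃ C : ℝ, 0 < C ∧ ∀ Y : ℝ, 1 ≤ Y → ∀ s : Finset (ℤ × ℤ),
      (∀ p ∈ s, Dy Y p ∧ hom f q p.1 p.2 ≠ 0 ∧ ∃ l : ℕ, l.Prime ∧ Y ^ (2 - κ) < (l : ℝ) ∧
        (l : ℤ) ^ 2 ∣ hom f q p.1 p.2) →
      (s.card : ℝ) ≤ C * Y ^ (2 - κ + ε) := by
  classical
  obtain ⟨n, g, d, c, c', hc, hc', hrel, hsum, hsq, hg⟩ := fact_list f q hf
  have hd : ∀ k, (g k).natDegree ≤ d k := by
    intro k
    rcases hg k with h | h
    · exact h.1.le
    · rw [h.1, natDegree_one]
      exact Nat.zero_le _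
  have hg' : ∀ k, ((g k).natDegree = d k ∧ Irreducible (toQ (g k)) ∧ d k ≤ 3) ∨
      (g k = 1 ∧ d k = 1) := by
    intro k
    rcases hg k with h | h
    · left
      refine ⟨h.1, h.2.1, ?_⟩
      rw [← h.1, ← toQ_natDegree]
      exact h3 _ h.2.1 h.2.2
    · exact Or.inr h
  obtain ⟨M, hM, hbig⟩ := big_sq g d hd hsq
  choose Ci Yi hCi hone using fun k => one_fac (g k) (d k) (hg' k) κ hκ0 hκ ε hε
  obtain ⟨Z, hZ⟩ : ∃ Z : ℕ, Z = ⌈∑ k, |Yi k|⌉₊ + M + c'.natAbs := ⟨_, rfl⟩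
  have hrelv : ∀ a b : ℤ, c * hom f q a b = c' * ∏ k, hom (g k) (d k) a b := by
    intro a b
    rw [← (hom_prod univ g d (fun i _ => hd i) a b).2, hsum, ← hom_smul, ← hom_smul, hrel]
  refine ⟨(2 * (Z : ℝ) + 1) ^ 2 + ∑ k, Ci k, ?_, ?_⟩
  · have : 0 ≤ ∑ k, Ci k := sum_nonneg fun k _ => (hCi k).le
    positivity
  intro Y hY s hs
  have hY0 : 0 < Y := by linarith
  have hYp : 1 ≤ Y ^ (2 - κ + ε) := Real.one_le_rpow hY (by linarith)
  have hCs : 0 ≤ ∑ k, Ci k := sum_nonneg fun k _ => (hCi k).le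
  by_cases hYZ : Y ≤ Z
  · have h1 := box_card s Z (fun p hp => ⟨(hs p hp).1.2.1.trans hYZ, (hs p hp).1.2.2.1.trans hYZ⟩)
    refine h1.trans ?_
    have h2 : (2 * (Z : ℝ) + 1) ^ 2 ≤ (2 * (Z : ℝ) + 1) ^ 2 + ∑ k, Ci k := by linarith
    exact h2.trans (le_mul_of_one_le_right (by positivity) hYp)
  · push Not at hYZ
    have hcover : s ⊆ univ.biUnion (fun k : Fin n => s.filter (fun p =>
        ∃ l : ℕ, l.Prime ∧ Y ^ (2 - κ) < (l : ℝ) ∧ (l : ℤ) ^ 2 ∣ hom (g k) (d k) p.1 p.2)) := by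
      intro p hp
      obtain ⟨h1, h2, l, hl, hlY, hdvd⟩ := hs p hp
      have hlZ : (Z : ℝ) < l := by
        refine hYZ.trans_le (le_trans ?_ hlY.le)
        calc Y = Y ^ (1 : ℝ) := (Real.rpow_one _).symm
          _ ≤ Y ^ (2 - κ) := Real.rpow_le_rpow_of_exponent_le hY (by linarith)
      have hlZ' : Z < l := by exact_mod_cast hlZ
      have hlM : ¬ l ∣ M := fun h => by
        have := Nat.le_of_dvd hM h
        omega
      have hlc : ¬ (l : ℤ) ∣ c' := fun h => by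
        have := Nat.le_of_dvd (Int.natAbs_pos.mpr hc') (Int.natCast_dvd.mp h)
        omega
      have hpI : Prime (l : ℤ) := Nat.prime_iff_prime_int.mp hl
      have h4 : (l : ℤ) ^ 2 ∣ c' * ∏ k, hom (g k) (d k) p.1 p.2 := by
        rw [← hrelv]
        exact hdvd.mul_left _
      have h5 : IsCoprime ((l : ℤ) ^ 2) c' :=
        ((Prime.coprime_iff_not_dvd hpI).mpr hlc).pow_left
      obtain ⟨k, hk⟩ := hbig p.1 p.2 h1.1 l hl hlM (h5.dvd_of_dvd_mul_left h4)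
      rw [mem_biUnion]
      exact ⟨k, mem_univ k, mem_filter.mpr ⟨hp, l, hl, hlY, hk⟩⟩
    have hb : ∀ k : Fin n, ((s.filter (fun p =>
        ∃ l : ℕ, l.Prime ∧ Y ^ (2 - κ) < (l : ℝ) ∧
          (l : ℤ) ^ 2 ∣ hom (g k) (d k) p.1 p.2)).card : ℝ) ≤ Ci k * Y ^ (2 - κ + ε) := by
      intro k
      apply hone k Y hY
      · have h1 : |Yi k| ≤ ∑ k, |Yi k| :=
          single_le_sum (f := fun k => |Yi k|) (fun i _ => abs_nonneg _) (mem_univ k)
        have h2 : (∑ k, |Yi k|) ≤ Z := by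
          rw [hZ]
          push_cast
          have := Nat.le_ceil (∑ k, |Yi k|)
          have h3 : (0 : ℝ) ≤ (M : ℝ) := Nat.cast_nonneg _
          have h4 : (0 : ℝ) ≤ ((c'.natAbs : ℕ) : ℝ) := Nat.cast_nonneg _
          push_cast at h4
          linarith
        linarith [le_abs_self (Yi k)]
      · intro p hp
        rw [mem_filter] at hp
        refine ⟨(hs p hp.1).1, ?_, hp.2⟩
        intro h0
        have h1 := hrelv p.1 p.2
        rw [prod_eq_zero (mem_univ k) h0, mul_zero] at h1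
        rcases mul_eq_zero.mp h1 with h2 | h2
        · exact hc h2
        · exact (hs p hp.1).2.1 h2
    calc (s.card : ℝ) ≤ ((univ.biUnion (fun k : Fin n => s.filter (fun p =>
        ∃ l : ℕ, l.Prime ∧ Y ^ (2 - κ) < (l : ℝ) ∧
          (l : ℤ) ^ 2 ∣ hom (g k) (d k) p.1 p.2))).card : ℝ) := by
          exact_mod_cast card_le_card hcover
      _ ≤ ∑ k : Fin n, ((s.filter (fun p =>
        ∃ l : ℕ, l.Prime ∧ Y ^ (2 - κ) < (l : ℝ) ∧
          (l : ℤ) ^ 2 ∣ hom (g k) (d k) p.1 p.2)).card : ℝ) := by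
          exact_mod_cast card_biUnion_le
      _ ≤ ∑ k : Fin n, Ci k * Y ^ (2 - κ + ε) := sum_le_sum fun k _ => hb k
      _ = (∑ k, Ci k) * Y ^ (2 - κ + ε) := by rw [← sum_mul]
      _ ≤ _ := mul_le_mul_of_nonneg_right (le_add_of_nonneg_left (by positivity)) (by positivity)

end Pool.Agent.H461.Low
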