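import Pool.Graph.R_seed8.W462.QD.CntQ

/-!
# Upper bound for the truncated counting function of the zeros of a form
-/

set_option autoImplicit false

namespace Pool.Agent.H461.Low

open NumberField IsDedekindDomain Finset Polynomial
open Pool.Agent.W4.CF Pool.Agent.W4.VC Pool.Agent.W4.QD Pool.Agent.H691R3
open Pool.Agent.W240.CD hiding gt count_eq gt_nonneg gt_fin gt_ge unit_of
open Pool.Agent.W462.QD

variable {K : Type} [Field K] [NumberField K] {q : ℕ}

theorem sum_Sp_le (p : ℕ) (hp0 : (p : K) ≠ 0) :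
    ∑ w ∈ Sp K p hp0, Real.log (Nv w) ≤ (Module.finrank ℚ K : ℝ) * Real.log p := by
  have h1 := log_product_formula (K := K) hp0
  have h2 : ∑ᶠ v : HeightOneSpectrum (𝓞 K), Real.log (fv v (p : K)) =
      ∑ w ∈ Sp K p hp0, Real.log (fv w (p : K)) := by
    refine finsum_eq_sum_of_support_subset _ ?_
    intro w hw
    unfold Sp
    rw [Set.Finite.coe_toFinset]
    simp only [Function.mem_support] at hw
    intro h'
    rw [h', Real.log_one] at hw
    exact hw rfl
  have h3 : ∑ w : InfinitePlace K, (w.mult : ℝ) * Real.log (w (p : K)) =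
      (Module.finrank ℚ K : ℝ) * Real.log p := by
    have h4 : ∀ w : InfinitePlace K, w (p : K) = (p : ℝ) := fun w => by
      rw [← InfinitePlace.norm_embedding_eq, map_natCast, Complex.norm_natCast]
    simp_rw [h4]
    rw [← Finset.sum_mul]
    congr 1
    exact_mod_cast InfinitePlace.sum_mult_eq (K := K)
  rw [h3, h2] at h1
  have h5 : ∑ w ∈ Sp K p hp0, Real.log (Nv w) ≤ ∑ w ∈ Sp K p hp0, (- Real.log (fv w (p : K))) := by
    refine Finset.sum_le_sum fun w hw => ?_
    have hlt : fv w (p : K) < 1 := (mem_Sp p hp0 w).1 hw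
    obtain ⟨n, hn⟩ := fv_zpow w hp0
    have hN := two_le_Nv w
    have hlog := log_Nv_pos w
    have hpos : 0 < fv w (p : K) := (fv w).pos hp0
    have h6 : Real.log (fv w (p : K)) < 0 := Real.log_neg hpos hlt
    rw [hn, Real.log_zpow] at h6 ⊢
    have hn1 : n ≤ -1 := by
      by_contra h
      push Not at h
      have : (0 : ℝ) ≤ n := by exact_mod_cast (by omega : 0 ≤ n)
      nlinarith
    have hn2 : (n : ℝ) ≤ -1 := by exact_mod_cast hn1
    nlinarith
  rw [Finset.sum_neg_distrib] at h5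
  linarith

/-- the linear factors are integral, and small at `w` if `x` is close to `α_l` -/
theorem fac_fv (w : HeightOneSpectrum (𝓞 K)) (a : K × K) (u v : ℤ) (huv : IsCoprime u v)
    (hv : (v : K) ≠ 0) (ha0 : a ≠ 0) (hz : (u : K) / v * a.2 - 1 * a.1 ≠ 0)
    (h2 : max (fv w a.1) (fv w a.2) = 1) :
    Real.log (fv w ((u : K) * a.2 - v * a.1)) = - lamA (fv w) ((u : K) / v, 1) a := by
  have hvp : 0 < fv w (v : K) := (fv w).pos hv
  have hM : fv w (v : K) * max (fv w ((u : K) / v)) (fv w 1) = 1 := by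
    rw [← max_mul_max (fv w) (p := ((u : K) / v, 1)) (v : K)]
    simp only [mul_one]
    rw [mul_div_cancel₀ _ hv]
    exact max_one w u v huv
  have h5 := lamA_eq (fv w) (pz_ne ((u : K) / v)) ha0 hz
  rw [h2, Real.log_one, add_zero] at h5
  have h8 : (u : K) * a.2 - v * a.1 = v * ((u : K) / v * a.2 - 1 * a.1) := by
    field_simp
  have hmp := max_pos (fv w) (pz_ne ((u : K) / v))
  rw [h8, map_mul, Real.log_mul hvp.ne' ((fv w).pos hz).ne', h5]
  have h9 := congrArg Real.log hM
  rw [Real.log_mul hvp.ne' hmp.ne', Real.log_one] at h9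
  simp only at h9 ⊢
  linarith

theorem fac_le (w : HeightOneSpectrum (𝓞 K)) (a : K × K) (u v : ℤ)
    (h2 : max (fv w a.1) (fv w a.2) = 1) :
    fv w ((u : K) * a.2 - v * a.1) ≤ 1 := by
  rw [sub_eq_add_neg]
  refine (fv_na w _ _).trans (max_le ?_ ?_)
  · rw [map_mul]
    exact mul_le_one₀ (fv_int w u) ((fv w).nonneg _) (h2 ▸ le_max_right _ _)
  · rw [AbsoluteValue.map_neg, map_mul]
    exact mul_le_one₀ (fv_int w v) ((fv w).nonneg _) (h2 ▸ le_max_left _ _)

/-- a prime of `K` at which an integer is small lies over a prime factor of the integer -/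
theorem exists_prime_below (w : HeightOneSpectrum (𝓞 K)) (n : ℤ) (hn : n ≠ 0)
    (h : fv w (n : K) < 1) : ∃ p ∈ n.natAbs.primeFactors, fv w (p : K) < 1 := by
  by_contra hc
  push Not at hc
  have h1 : fv w ((n.natAbs : ℕ) : K) = 1 := by
    have h2 : n.natAbs ≠ 0 := Int.natAbs_ne_zero.2 hn
    have h3 := Nat.prod_factorization_pow_eq_self h2
    rw [← h3, Finsupp.prod, Nat.cast_prod, map_prod]
    refine Finset.prod_eq_one fun p hp => ?_
    rw [Nat.cast_pow, map_pow]
    have h4 : fv w (p : K) = 1 := by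
      refine le_antisymm ?_ (hc p (by simpa using hp))
      have := fv_int w (p : ℤ)
      rwa [Int.cast_natCast] at this
    rw [h4, one_pow]
  rcases Int.natAbs_eq n with h2 | h2
  · rw [h2, Int.cast_natCast, h1] at h
    exact lt_irrefl _ h
  · rw [h2, Int.cast_neg, Int.cast_natCast, AbsoluteValue.map_neg, h1] at h
    exact lt_irrefl _ h

theorem gt_le_bad {α : Fin q → K × K} {z : K} (w : HeightOneSpectrum (𝓞 K)) :
    gt α z w ≤ q * (Real.log (Nv w) / (Module.finrank ℚ K : ℝ)) := by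
  unfold gt
  refine (Finset.sum_le_sum fun l _ => min_le_right _ _).trans (le_of_eq ?_)
  rw [Finset.sum_const, card_univ, Fintype.card_fin, nsmul_eq_mul]

theorem gt_le_good {α : Fin q → K × K} {z : K} (w : HeightOneSpectrum (𝓞 K))
    (hα0 : ∀ i, α i ≠ 0) (hz : ∀ l, z * (α l).2 - 1 * (α l).1 ≠ 0)
    (hα : ∀ i j, i ≠ j → (α i).1 * (α j).2 - (α i).2 * (α j).1 ≠ 0)
    (hm : ∀ l, max (fv w (α l).1) (fv w (α l).2) = 1)
    (hd : ∀ i j, i ≠ j → fv w ((α i).1 * (α j).2 - (α i).2 * (α j).1) = 1) :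
    gt α z w ≤ Real.log (Nv w) / (Module.finrank ℚ K : ℝ) := by
  by_cases hc : ∃ l, lamA (fv w) (z, 1) (α l) ≠ 0
  · obtain ⟨l, hl⟩ := hc
    have hl0 : 0 < lamA (fv w) (z, 1) (α l) :=
      lt_of_le_of_ne (lamF_nonneg w (pz_ne z) (hα0 l) (hz l)) (Ne.symm hl)
    have hoth : ∀ i, i ≠ l → lamA (fv w) (z, 1) (α i) = 0 := by
      intro i hi
      by_contra hne
      have hi0 : 0 < lamA (fv w) (z, 1) (α i) :=
        lt_of_le_of_ne (lamF_nonneg w (pz_ne z) (hα0 i) (hz i)) (Ne.symm hne)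
      have hwd : (α l).1 * (1 : K) - (α l).2 * z ≠ 0 := by
        have := hz l
        intro h0
        apply this
        linear_combination -h0
      have h1 := lamA_ultra (fv w) (fv_na w) (hα0 l) (pz_ne z) (hα0 i) (hα l i (Ne.symm hi))
        hwd (hz i) (min (lamA (fv w) (z, 1) (α l)) (lamA (fv w) (z, 1) (α i)))
        (by rw [lamA_comm]; exact min_le_left _ _) (min_le_right _ _)
      rw [lamA_eq (fv w) (hα0 l) (hα0 i) (hα l i (Ne.symm hi)), hm l, hm i, hd l i (Ne.symm hi),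
        Real.log_one] at h1
      have h2 := lt_min hl0 hi0
      linarith
    unfold gt
    rw [Finset.sum_eq_single l]
    · exact min_le_right _ _
    · intro i _ hi
      rw [hoth i hi, zero_div]
      exact min_eq_left (div_nonneg (log_Nv_pos w).le n_pos.le)
    · intro h
      exact absurd (mem_univ l) h
  · push Not at hc
    unfold gt
    have : ∑ l : Fin q, min (lamA (fv w) (z, 1) (α l) / (Module.finrank ℚ K : ℝ))
        (Real.log (Nv w) / (Module.finrank ℚ K : ℝ)) = 0 := by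
      refine Finset.sum_eq_zero fun l _ => ?_
      rw [hc l, zero_div]
      exact min_eq_left (div_nonneg (log_Nv_pos w).le n_pos.le)
    rw [this]
    exact div_nonneg (log_Nv_pos w).le n_pos.le

/-- if the local term does not vanish at a good prime then the value of the form is small -/
theorem small_of_gt {α : Fin q → K × K} (w : HeightOneSpectrum (𝓞 K)) (κ : K) (u v : ℤ)
    (huv : IsCoprime u v) (hv : (v : K) ≠ 0) (hα0 : ∀ i, α i ≠ 0)
    (hz : ∀ l, (u : K) / v * (α l).2 - 1 * (α l).1 ≠ 0)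
    (hκ : fv w κ = 1) (hm : ∀ l, max (fv w (α l).1) (fv w (α l).2) = 1)
    (h : gt α ((u : K) / v) w ≠ 0) :
    fv w (κ * ∏ i, ((u : K) * (α i).2 - v * (α i).1)) < 1 := by
  classical
  have hc : ∃ l, lamA (fv w) ((u : K) / v, 1) (α l) ≠ 0 := by
    by_contra hc
    push Not at hc
    apply h
    unfold gt
    refine Finset.sum_eq_zero fun l _ => ?_
    rw [hc l, zero_div]
    exact min_eq_left (div_nonneg (log_Nv_pos w).le n_pos.le)
  obtain ⟨l, hl⟩ := hc
  have hl0 : 0 < lamA (fv w) ((u : K) / v, 1) (α l) :=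
    lt_of_le_of_ne (lamF_nonneg w (pz_ne _) (hα0 l) (hz l)) (Ne.symm hl)
  have h1 := fac_fv w (α l) u v huv hv (hα0 l) (hz l) (hm l)
  have hne : (u : K) * (α l).2 - v * (α l).1 ≠ 0 := by
    intro h0
    apply hz l
    have h8 : (u : K) * (α l).2 - v * (α l).1 =
        v * ((u : K) / v * (α l).2 - 1 * (α l).1) := by
      field_simp
    rw [h8] at h0
    exact (mul_eq_zero.1 h0).resolve_left hv
  have h2 : fv w ((u : K) * (α l).2 - v * (α l).1) < 1 := by
    by_contra hge
    push Not at hge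
    have := Real.log_nonneg hge
    linarith
  rw [map_mul, hκ, one_mul, map_prod, ← Finset.mul_prod_erase univ _ (mem_univ l)]
  have h3 : ∏ i ∈ univ.erase l, fv w ((u : K) * (α i).2 - v * (α i).1) ≤ 1 :=
    Finset.prod_le_one (fun i _ => (fv w).nonneg _) fun i _ => fac_le w (α i) u v (hm i)
  have h4 : 0 ≤ ∏ i ∈ univ.erase l, fv w ((u : K) * (α i).2 - v * (α i).1) :=
    Finset.prod_nonneg fun i _ => (fv w).nonneg _
  calc fv w ((u : K) * (α l).2 - v * (α l).1) * ∏ i ∈ univ.erase l, fv w ((u : K) * (α i).2 - v * (α i).1)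
      ≤ fv w ((u : K) * (α l).2 - v * (α l).1) * 1 :=
        mul_le_mul_of_nonneg_left h3 ((fv w).nonneg _)
    _ < 1 := by rw [mul_one]; exact h2

/-- the truncated counting function is at most the logarithm of the radical, up to a constant -/
theorem cnt_up (T : Set (HeightOneSpectrum (𝓞 K))) (α : Fin q → K × K) (hα0 : ∀ i, α i ≠ 0)
    (hα : ∀ i j, i ≠ j → (α i).1 * (α j).2 - (α i).2 * (α j).1 ≠ 0) (f : ℤ[X]) (hf0 : f ≠ 0)
    (hfq : f.natDegree ≤ q)
    (h : ∀ i, ∑ j ∈ range (q + 1), (f.coeff j : K) * (α i).1 ^ j * (α i).2 ^ (q - j) = 0) :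
    ∃ C : ℝ, 0 ≤ C ∧ ∀ u v : ℤ, IsCoprime u v → v ≠ 0 → hom f q u v ≠ 0 →
      countingK T α ((u : K) / v) ≤ ∑ p ∈ (hom f q u v).natAbs.primeFactors, Real.log (p : ℝ) + C := by
  classical
  set p : K[X] := f.map (Int.castRingHom K) with hpdef
  have hinjc : Function.Injective (Int.castRingHom K) := Int.cast_injective
  have hpc : ∀ j, p.coeff j = ((f.coeff j : ℤ) : K) := fun j => by
    rw [hpdef, coeff_map]
    rfl
  have hp0 : p ≠ 0 := (Polynomial.map_ne_zero_iff hinjc).2 hf0
  have hpq : p.natDegree ≤ q := natDegree_map_le.trans hfq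
  obtain ⟨κ, hκ, hF⟩ := fac α hα0 hα p hp0 hpq (fun i => by
    unfold hK
    simp only [hpc]
    exact h i)
  have hfin : (({w : HeightOneSpectrum (𝓞 K) | fv w κ ≠ 1} ∪
      ⋃ l : Fin q, {w | max (fv w (α l).1) (fv w (α l).2) ≠ 1}) ∪
      ⋃ s : Fin q × Fin q, {w | s.1 ≠ s.2 ∧
        fv w ((α s.1).1 * (α s.2).2 - (α s.1).2 * (α s.2).1) ≠ 1}).Finite := by
    refine ((fv_support_finite hκ).union
      (Set.finite_iUnion fun l => max_support_finite (hα0 l))).union (Set.finite_iUnion fun s => ?_)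
    by_cases hs : s.1 = s.2
    · convert Set.finite_empty
      ext w
      simp [hs]
    · exact (fv_support_finite (hα s.1 s.2 hs)).subset fun w hw => hw.2
  set W := hfin.toFinset with hW
  have hWn : ∀ w, w ∉ W → fv w κ = 1 ∧ (∀ l : Fin q, max (fv w (α l).1) (fv w (α l).2) = 1) ∧
      ∀ i j : Fin q, i ≠ j → fv w ((α i).1 * (α j).2 - (α i).2 * (α j).1) = 1 := by
    intro w hw
    rw [hW, Set.Finite.mem_toFinset] at hw
    simp only [Set.mem_union, Set.mem_ofPred_eq, Set.mem_iUnion, not_or, not_exists, not_not,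
      not_and] at hw
    exact ⟨hw.1.1, hw.1.2, fun i j hij => hw.2 (i, j) hij⟩
  have hn := n_pos (K := K)
  have hNn : ∀ w : HeightOneSpectrum (𝓞 K), 0 ≤ Real.log (Nv w) / (Module.finrank ℚ K : ℝ) :=
    fun w => div_nonneg (log_Nv_pos w).le hn.le
  refine ⟨∑ w ∈ W, q * (Real.log (Nv w) / (Module.finrank ℚ K : ℝ)),
    Finset.sum_nonneg fun w _ => mul_nonneg (Nat.cast_nonneg _) (hNn w), fun u v huv hv hFuv => ?_⟩
  have hvK : (v : K) ≠ 0 := by exact_mod_cast hv
  have hFK : ((hom f q u v : ℤ) : K) = κ * ∏ i, ((u : K) * (α i).2 - v * (α i).1) := by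
    rw [← hF]
    unfold hom hK
    push_cast
    simp only [hpc]
  have hFK0 : ((hom f q u v : ℤ) : K) ≠ 0 := by exact_mod_cast hFuv
  have hL : ∀ l : Fin q, (u : K) * (α l).2 - v * (α l).1 ≠ 0 := by
    intro l hl
    apply hFK0
    rw [hFK, Finset.prod_eq_zero (mem_univ l) hl, mul_zero]
  have hz : ∀ l : Fin q, (u : K) / v * (α l).2 - 1 * (α l).1 ≠ 0 := by
    intro l hl
    apply hL l
    have h8 : (u : K) * (α l).2 - v * (α l).1 =
        v * ((u : K) / v * (α l).2 - 1 * (α l).1) := by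
      field_simp
    rw [h8, hl, mul_zero]
  set P := (hom f q u v).natAbs.primeFactors with hP
  have hPp : ∀ p ∈ P, p.Prime := fun p hp => Nat.prime_of_mem_primeFactors hp
  have hS : ∀ p ∈ P, ∀ w, w ∈ Sq K p ↔ fv w (p : K) < 1 := by
    intro p hp w
    have hp0 : (p : K) ≠ 0 := by exact_mod_cast (hPp p hp).ne_zero
    rw [Sq_eq p hp0, mem_Sp]
  set U := W ∪ P.biUnion (Sq K) with hU
  have hsupp : Function.support (Set.indicator Tᶜ (gt α ((u : K) / v))) ⊆ (U : Set _) := by
    intro w hw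
    by_contra hwU
    rw [hU, Finset.mem_coe, Finset.mem_union, not_or] at hwU
    apply hw
    obtain ⟨g1, g2, g3⟩ := hWn w hwU.1
    have h0 : gt α ((u : K) / v) w = 0 := by
      by_contra hne
      have h1 := small_of_gt w κ u v huv hvK hα0 hz g1 g2 hne
      rw [← hFK] at h1
      obtain ⟨p, hp, hpw⟩ := exists_prime_below w _ hFuv h1
      exact hwU.2 (Finset.mem_biUnion.2 ⟨p, hp, (hS p hp w).2 hpw⟩)
    by_cases hwT : w ∈ Tᶜ
    · rw [Set.indicator_of_mem hwT, h0]
    · rw [Set.indicator_of_notMem hwT]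
  have hgt0 : ∀ w, 0 ≤ gt α ((u : K) / v) w := fun w => gt_nonneg hα0 hz w
  have hindle : ∀ w, Set.indicator Tᶜ (gt α ((u : K) / v)) w ≤ gt α ((u : K) / v) w := by
    intro w
    exact Set.indicator_le_self' (fun _ _ => hgt0 _) w
  rw [count_eq, finsum_eq_sum_of_support_subset _ hsupp]
  calc ∑ w ∈ U, Set.indicator Tᶜ (gt α ((u : K) / v)) w
      ≤ ∑ w ∈ U, gt α ((u : K) / v) w := Finset.sum_le_sum fun w _ => hindle w
    _ = ∑ w ∈ (P.biUnion (Sq K)) \ W, gt α ((u : K) / v) w + ∑ w ∈ W, gt α ((u : K) / v) w := by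
        rw [hU, ← Finset.sum_sdiff (Finset.subset_union_left : W ⊆ W ∪ P.biUnion (Sq K))]
        congr 2
        ext w
        simp only [Finset.mem_sdiff, Finset.mem_union]
        tauto
    _ ≤ ∑ w ∈ P.biUnion (Sq K), Real.log (Nv w) / (Module.finrank ℚ K : ℝ) +
        ∑ w ∈ W, q * (Real.log (Nv w) / (Module.finrank ℚ K : ℝ)) := by
        refine add_le_add ?_ (Finset.sum_le_sum fun w _ => gt_le_bad w)
        refine (Finset.sum_le_sum fun w hw => ?_).trans
          (Finset.sum_le_sum_of_subset_of_nonneg Finset.sdiff_subset fun w _ _ => hNn w)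
        obtain ⟨_, g2, g3⟩ := hWn w (Finset.mem_sdiff.1 hw).2
        exact gt_le_good w hα0 hz hα g2 g3
    _ ≤ ∑ p ∈ P, Real.log (p : ℝ) + ∑ w ∈ W, q * (Real.log (Nv w) / (Module.finrank ℚ K : ℝ)) := by
        refine add_le_add ?_ le_rfl
        rw [Finset.sum_biUnion]
        · refine Finset.sum_le_sum fun p hp => ?_
          have hp0 : (p : K) ≠ 0 := by exact_mod_cast (hPp p hp).ne_zero
          rw [← Finset.sum_div, div_le_iff₀ hn, mul_comm, Sq_eq p hp0]
          exact sum_Sp_le p hp0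
        · intro p hp p' hp' hpp
          refine Finset.disjoint_left.2 fun w hw hw' => hpp ?_
          exact uniq w p p' (hPp p hp) (hPp p' hp') ((hS p hp w).1 hw) ((hS p' hp' w).1 hw')

end Pool.Agent.H461.Low
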