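import Pool.Agent.H461.Low.Case2

/-!
# The number of the points with a small radical
-/

set_option autoImplicit false

namespace Pool.Agent.H461.Low

open Finset Polynomial UniqueFactorizationMonoid Pool.Agent.W4.CF Pool.Agent.W4.VC
open Pool.Agent.TH498.KB Pool.Agent.H461.Blk

/-- the two cases for one value -/
theorem dich (n m : ℕ) (hn : n ≠ 0) (hm : 1 ≤ m) (κ A CF Y : ℝ) (q : ℕ) (hκ0 : 0 ≤ κ)
    (hκ : κ ≤ 2 / 3) (hA : 1 ≤ A) (hCF : 1 ≤ CF) (hY : 1 ≤ Y) (hsize : (n : ℝ) ≤ CF * Y ^ q)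
    (hrad : (radp m n : ℝ) ≤ A * Y ^ ((q : ℝ) - κ)) :
    (∃ d : ℕ, 1 ≤ d ∧ (d : ℝ) ≤ Y ^ (2 - κ) ∧ d * radp 1 d ∣ n ∧
      (n : ℝ) ≤ (m * A * CF) * d * Y ^ ((q : ℝ) - κ)) ∨
    ∃ l : ℕ, l.Prime ∧ Y ^ (2 - κ) < (l : ℝ) ∧ l ^ 2 ∣ n := by
  have hY0 : 0 < Y := by linarith
  have hm0 : (1 : ℝ) ≤ m := by exact_mod_cast hm
  have hA₁p : 0 < (m : ℝ) * A := by positivity
  have hA₁1 : 1 ≤ (m : ℝ) * A := by nlinarith
  have hYq : 0 < Y ^ ((q : ℝ) - κ) := by positivity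
  have hrd : (radp 1 n : ℝ) ≤ m * A * Y ^ ((q : ℝ) - κ) := by
    have h1 : (radp 1 n : ℝ) ≤ m * radp m n := by
      exact_mod_cast radp_one_le m n (by omega)
    calc (radp 1 n : ℝ) ≤ m * radp m n := h1
      _ ≤ m * (A * Y ^ ((q : ℝ) - κ)) := mul_le_mul_of_nonneg_left hrad (by positivity)
      _ = _ := by ring
  obtain ⟨r, hr⟩ : ∃ r : ℕ, r = n / radp 1 n := ⟨_, rfl⟩
  have hrn : r * radp 1 n = n := by rw [hr]; exact Nat.div_mul_cancel (radp_one_dvd n)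
  have hr1 : 1 ≤ r := by
    rcases Nat.eq_zero_or_pos r with h0 | h0
    · rw [h0, zero_mul] at hrn
      exact absurd hrn.symm hn
    · exact h0
  have hr0 : (0 : ℝ) < r := by exact_mod_cast hr1
  obtain ⟨R, hR⟩ : ∃ R : ℝ, R = n / (m * A * CF * Y ^ ((q : ℝ) - κ)) := ⟨_, rfl⟩
  have hden : 0 < m * A * CF * Y ^ ((q : ℝ) - κ) := by positivity
  have hRn : (n : ℝ) = R * (m * A * CF * Y ^ ((q : ℝ) - κ)) := by
    rw [hR, div_mul_cancel₀ _ hden.ne']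
  have hRr : R ≤ r := by
    rw [hR, div_le_iff₀ hden]
    have h1 : (n : ℝ) = r * radp 1 n := by exact_mod_cast hrn.symm
    rw [h1]
    refine mul_le_mul_of_nonneg_left (hrd.trans ?_) hr0.le
    have h2 : m * A * Y ^ ((q : ℝ) - κ) * 1 ≤ m * A * Y ^ ((q : ℝ) - κ) * CF :=
      mul_le_mul_of_nonneg_left hCF (by positivity)
    linarith
  have hRκ : R ≤ Y ^ κ := by
    rw [hR, div_le_iff₀ hden]
    have h1 : Y ^ κ * (m * A * CF * Y ^ ((q : ℝ) - κ)) = m * A * (CF * Y ^ q) := by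
      have : Y ^ q = Y ^ κ * Y ^ ((q : ℝ) - κ) := by
        rw [← Real.rpow_add hY0, ← Real.rpow_natCast Y q]
        congr 1
        ring
      rw [this]
      ring
    rw [h1]
    exact hsize.trans (le_mul_of_one_le_left (by positivity) hA₁1)
  have hYκ1 : 1 ≤ Y ^ κ := Real.one_le_rpow hY hκ0
  have hT : 1 ≤ Y ^ (2 - 2 * κ) := Real.one_le_rpow hY (by linarith)
  have hTκ : Y ^ κ ≤ Y ^ (2 - 2 * κ) := Real.rpow_le_rpow_of_exponent_le hY (by linarith)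
  have hprod : Y ^ κ * Y ^ (2 - 2 * κ) = Y ^ (2 - κ) := by
    rw [← Real.rpow_add hY0]
    congr 1
    ring
  have hfin : ∀ d : ℕ, d ∣ r → R ≤ d → (d : ℝ) ≤ Y ^ (2 - κ) → (∃ d : ℕ, 1 ≤ d ∧
      (d : ℝ) ≤ Y ^ (2 - κ) ∧ d * radp 1 d ∣ n ∧
      (n : ℝ) ≤ (m * A * CF) * d * Y ^ ((q : ℝ) - κ)) := by
    intro d hd hRd hdY
    refine ⟨d, Nat.pos_of_dvd_of_pos hd hr1, hdY, mul_radp_dvd hn (by rw [← hr]; exact hd), ?_⟩
    calc (n : ℝ) = R * (m * A * CF * Y ^ ((q : ℝ) - κ)) := hRn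
      _ ≤ d * (m * A * CF * Y ^ ((q : ℝ) - κ)) := mul_le_mul_of_nonneg_right hRd hden.le
      _ = _ := by ring
  rcases sel r hr1 R (Y ^ (2 - 2 * κ)) hRr hT with ⟨d, hd1, hd2, hd3⟩ | ⟨p, hp, hpr, hpT⟩
  · left
    refine hfin d hd1 hd2 (hd3.trans ?_)
    rw [← hprod]
    exact mul_le_mul_of_nonneg_right (max_le hYκ1 hRκ) (by positivity)
  · by_cases hpY : (p : ℝ) ≤ Y ^ (2 - κ)
    · left
      exact hfin p hpr ((hRκ.trans hTκ).trans hpT.le) hpY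
    · right
      push Not at hpY
      refine ⟨p, hp, hpY, ?_⟩
      have h1 := mul_radp_dvd hn (d := p) (by rw [← hr]; exact hpr)
      have h2 : radp 1 p = p := by
        rw [radp_one_eq, Nat.Prime.primeFactors hp, prod_singleton]
      rwa [h2, ← pow_two] at h1

theorem dyad (f : ℤ[X]) (q : ℕ) (hq : 1 ≤ q) (hf : Sqf f q)
    (h3 : ∀ p : ℚ[X], Irreducible p → p ∣ toQ f → p.natDegree ≤ 3)
    (κ : ℝ) (hκ0 : 0 ≤ κ) (hκ : κ ≤ 2 / 3) (A : ℝ) (hA : 1 ≤ A) (m : ℕ) (hm : 1 ≤ m)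
    (ε : ℝ) (hε : 0 < ε) :
    ∃ C : ℝ, 0 < C ∧ ∀ Y : ℝ, 1 ≤ Y → ∀ s : Finset (ℤ × ℤ),
      (∀ p ∈ s, Dy Y p ∧ hom f q p.1 p.2 ≠ 0 ∧
        (radp m (hom f q p.1 p.2).natAbs : ℝ) ≤ A * Y ^ ((q : ℝ) - κ)) →
      (s.card : ℝ) ≤ C * Y ^ (2 - κ + ε) := by
  classical
  obtain ⟨CF, hCF, hsize⟩ := Pool.Agent.W505.VC.t_HOM.2.1 f q
  have hm0 : (1 : ℝ) ≤ m := by exact_mod_cast hm
  obtain ⟨C₁, hC₁, h1⟩ := case1 f q hq hf κ hκ0 (by linarith) (m * A * CF) (by positivity) ε hε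
  obtain ⟨C₂, hC₂, h2⟩ := case2 f q hf h3 κ hκ0 hκ ε hε
  refine ⟨C₁ + C₂, by positivity, fun Y hY s hs => ?_⟩
  have hY0 : 0 < Y := by linarith
  have hnat : ∀ z : ℤ, ((z.natAbs : ℕ) : ℝ) = |((z : ℤ) : ℝ)| := fun z => by
    rw [Nat.cast_natAbs, Int.cast_abs]
  have hdi : ∀ p ∈ s, (∃ d : ℕ, 1 ≤ d ∧ (d : ℝ) ≤ Y ^ (2 - κ) ∧
        ((d * radp 1 d : ℕ) : ℤ) ∣ hom f q p.1 p.2 ∧
        |((hom f q p.1 p.2 : ℤ) : ℝ)| ≤ (m * A * CF) * d * Y ^ ((q : ℝ) - κ)) ∨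
      ∃ l : ℕ, l.Prime ∧ Y ^ (2 - κ) < (l : ℝ) ∧ (l : ℤ) ^ 2 ∣ hom f q p.1 p.2 := by
    intro p hp
    obtain ⟨g1, g2, g3⟩ := hs p hp
    have hle : (((hom f q p.1 p.2).natAbs : ℕ) : ℝ) ≤ CF * Y ^ q := by
      rw [hnat]
      exact (hsize p.1 p.2).trans (mul_le_mul_of_nonneg_left
        (pow_le_pow_left₀ (le_max_of_le_left (abs_nonneg _)) (max_le g1.2.1 g1.2.2.1) _)
        (by linarith))
    rcases dich _ m (Int.natAbs_ne_zero.mpr g2) hm κ A CF Y q hκ0 hκ hA hCF hY hle g3 with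
      ⟨d, hd1, hd2, hd3, hd4⟩ | ⟨l, hl, hlY, hdvd⟩
    · left
      refine ⟨d, hd1, hd2, Int.natCast_dvd.mpr hd3, ?_⟩
      rw [← hnat]
      exact hd4
    · right
      refine ⟨l, hl, hlY, ?_⟩
      have : ((l ^ 2 : ℕ) : ℤ) ∣ hom f q p.1 p.2 := Int.natCast_dvd.mpr hdvd
      simpa using this
  have hsplit : s ⊆ (s.filter (fun p => ∃ d : ℕ, 1 ≤ d ∧ (d : ℝ) ≤ Y ^ (2 - κ) ∧
        ((d * radp 1 d : ℕ) : ℤ) ∣ hom f q p.1 p.2 ∧
        |((hom f q p.1 p.2 : ℤ) : ℝ)| ≤ (m * A * CF) * d * Y ^ ((q : ℝ) - κ))) ∪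
      (s.filter (fun p => ∃ l : ℕ, l.Prime ∧ Y ^ (2 - κ) < (l : ℝ) ∧
        (l : ℤ) ^ 2 ∣ hom f q p.1 p.2)) := by
    intro p hp
    rw [mem_union, mem_filter, mem_filter]
    rcases hdi p hp with h | h
    · exact Or.inl ⟨hp, h⟩
    · exact Or.inr ⟨hp, h⟩
  have k1 := h1 Y hY _ (fun p hp => by
    have := mem_filter.mp hp
    exact ⟨(hs p this.1).1, this.2⟩ :
    ∀ p ∈ s.filter (fun p => ∃ d : ℕ, 1 ≤ d ∧ (d : ℝ) ≤ Y ^ (2 - κ) ∧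
        ((d * radp 1 d : ℕ) : ℤ) ∣ hom f q p.1 p.2 ∧
        |((hom f q p.1 p.2 : ℤ) : ℝ)| ≤ (m * A * CF) * d * Y ^ ((q : ℝ) - κ)), _)
  have k2 := h2 Y hY _ (fun p hp => by
    have := mem_filter.mp hp
    exact ⟨(hs p this.1).1, (hs p this.1).2.1, this.2⟩ :
    ∀ p ∈ s.filter (fun p => ∃ l : ℕ, l.Prime ∧ Y ^ (2 - κ) < (l : ℝ) ∧
        (l : ℤ) ^ 2 ∣ hom f q p.1 p.2), _)
  have k3 := (card_le_card hsplit).trans (card_union_le _ _)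
  have k4 := (Nat.cast_le (α := ℝ)).mpr k3
  rw [Nat.cast_add] at k4
  refine k4.trans ?_
  rw [add_mul]
  exact add_le_add k1 k2

/-- the bounds for the dyadic ranges of the height -/
def Dyad (f : ℤ[X]) (q : ℕ) (κ : ℝ) : Prop :=
  ∀ (A : ℝ) (m : ℕ) (ε : ℝ), 1 ≤ A → 1 ≤ m → 0 < ε →
    ∃ C : ℝ, 0 < C ∧ ∀ Y : ℝ, 1 ≤ Y → ∀ s : Finset (ℤ × ℤ),
      (∀ p ∈ s, Dy Y p ∧ hom f q p.1 p.2 ≠ 0 ∧
        (radp m (hom f q p.1 p.2).natAbs : ℝ) ≤ A * Y ^ ((q : ℝ) - κ)) →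
      (s.card : ℝ) ≤ C * Y ^ (2 - κ + ε)

theorem up (f : ℤ[X]) (q : ℕ) (κ : ℝ) (hκq : κ ≤ q) (hκ : κ ≤ 2) (hdy : Dyad f q κ)
    (A : ℝ) (hA : 1 ≤ A) (m : ℕ) (hm : 1 ≤ m) (ε : ℝ) (hε : 0 < ε) :
    ∃ C : ℝ, 0 < C ∧ ∀ B : ℝ, 1 ≤ B → ∀ s : Finset (ℤ × ℤ),
      (∀ p ∈ s, IsCoprime p.1 p.2 ∧ |(p.1 : ℝ)| ≤ B ∧ |(p.2 : ℝ)| ≤ B ∧ hom f q p.1 p.2 ≠ 0 ∧
        (radp m (hom f q p.1 p.2).natAbs : ℝ) ≤
          A * (max |(p.1 : ℝ)| |(p.2 : ℝ)|) ^ ((q : ℝ) - κ)) →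
      (s.card : ℝ) ≤ C * B ^ (2 - κ + ε) := by
  classical
  obtain ⟨C₁, hC₁, h1⟩ := hdy A m (ε / 2) hA hm (by positivity)
  obtain ⟨C₃, hC₃, h4⟩ : ∃ C : ℝ, 0 < C ∧ ∀ Y : ℝ, 1 ≤ Y →
      (Real.log Y / Real.log 2 + 2) ≤ C * Y ^ (ε / 2) := by
    refine ⟨1 / (Real.log 2 * (ε / 2)) + 2, ?_, fun Y hY => ?_⟩
    · have := Real.log_pos one_lt_two
      positivity
    have hl2 := Real.log_pos one_lt_two
    have hY0 : 0 < Y := by linarith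
    have e1 : Real.log Y ≤ Y ^ (ε / 2) / (ε / 2) := Real.log_le_rpow_div hY0.le (by positivity)
    have e2 : (1 : ℝ) ≤ Y ^ (ε / 2) := Real.one_le_rpow hY (by positivity)
    calc Real.log Y / Real.log 2 + 2 ≤ (Y ^ (ε / 2) / (ε / 2)) / Real.log 2 + 2 * Y ^ (ε / 2) := by
          have := div_le_div_of_nonneg_right e1 hl2.le
          linarith
      _ = _ := by field_simp
  refine ⟨C₃ * (C₁ * 2 ^ (2 - κ + ε / 2)), by positivity, fun B hB s hs => ?_⟩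
  have hB0 : 0 < B := by linarith
  have hl2 := Real.log_pos one_lt_two
  let κ' : ℤ × ℤ → ℕ := fun p => Nat.clog 2 (max p.1.natAbs p.2.natAbs)
  obtain ⟨N, hN⟩ : ∃ N : ℕ, N = ⌊Real.log B / Real.log 2⌋₊ + 1 := ⟨_, rfl⟩
  have hmax : ∀ p ∈ s, 1 ≤ max p.1.natAbs p.2.natAbs ∧
      ((max p.1.natAbs p.2.natAbs : ℕ) : ℝ) = max |(p.1 : ℝ)| |(p.2 : ℝ)| := by
    intro p hp
    obtain ⟨hc, -, -, -⟩ := hs p hp
    refine ⟨?_, ?_⟩
    · by_contra hlt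
      have hz : max p.1.natAbs p.2.natAbs = 0 := by omega
      have z1 : p.1.natAbs = 0 := by
        have := le_max_left p.1.natAbs p.2.natAbs
        omega
      have z2 : p.2.natAbs = 0 := by
        have := le_max_right p.1.natAbs p.2.natAbs
        omega
      rw [Int.natAbs_eq_zero.mp z1, Int.natAbs_eq_zero.mp z2] at hc
      exact not_isCoprime_zero_zero hc
    · push_cast
      rw [Nat.cast_natAbs, Nat.cast_natAbs, Int.cast_abs, Int.cast_abs]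
  have hpow : ∀ p ∈ s, max |(p.1 : ℝ)| |(p.2 : ℝ)| ≤ (2 : ℝ) ^ κ' p ∧
      (2 : ℝ) ^ κ' p ≤ 2 * max |(p.1 : ℝ)| |(p.2 : ℝ)| := by
    intro p hp
    obtain ⟨m1, m2⟩ := hmax p hp
    rw [← m2]
    refine ⟨?_, ?_⟩
    · exact_mod_cast Nat.le_pow_clog one_lt_two _
    · rcases Nat.lt_or_ge 1 (max p.1.natAbs p.2.natAbs) with h | h
      · have h5 := Nat.pow_pred_clog_lt_self one_lt_two h
        have h6 : 0 < κ' p := Nat.clog_pos one_lt_two h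
        have h7 : (2 : ℕ) ^ κ' p = 2 * 2 ^ (κ' p).pred := by
          conv_lhs => rw [← Nat.succ_pred_eq_of_pos h6]
          rw [pow_succ, mul_comm]
        have h8 : (2 : ℕ) ^ κ' p ≤ 2 * max p.1.natAbs p.2.natAbs := by
          rw [h7]
          exact Nat.mul_le_mul_left 2 h5.le
        exact_mod_cast h8
      · have h9 : max p.1.natAbs p.2.natAbs = 1 := le_antisymm h m1
        have h10 : κ' p = 0 := by
          show Nat.clog 2 (max p.1.natAbs p.2.natAbs) = 0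
          rw [h9]
          exact Nat.clog_one_right 2
        rw [h10, h9]
        norm_num
  have hbd : ∀ p ∈ s, κ' p ≤ N := by
    intro p hp
    obtain ⟨-, b1, b2, -⟩ := hs p hp
    have h5 := (hpow p hp).2
    have h6 : (2 : ℝ) ^ κ' p ≤ 2 * B := h5.trans (by linarith [max_le b1 b2])
    have h7 := Real.log_le_log (by positivity) h6
    rw [Real.log_pow, Real.log_mul (by norm_num) hB0.ne'] at h7
    have h8 : (κ' p : ℝ) ≤ Real.log B / Real.log 2 + 1 := by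
      rw [div_add_one hl2.ne', le_div_iff₀ hl2]
      linarith
    have h9 : κ' p ≤ ⌊Real.log B / Real.log 2 + 1⌋₊ := Nat.le_floor h8
    rw [Nat.floor_add_one (div_nonneg (Real.log_nonneg hB) hl2.le)] at h9
    rw [hN]
    exact h9
  have hcover : s ⊆ (range (N + 1)).biUnion (fun k => s.filter (fun p => κ' p = k)) := by
    intro p hp
    rw [mem_biUnion]
    exact ⟨κ' p, mem_range.mpr (by have := hbd p hp; omega), mem_filter.mpr ⟨hp, rfl⟩⟩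
  have hone : ∀ k ∈ range (N + 1), ((s.filter (fun p => κ' p = k)).card : ℝ) ≤
      C₁ * (2 * B) ^ (2 - κ + ε / 2) := by
    intro k _
    rcases (s.filter (fun p => κ' p = k)).eq_empty_or_nonempty with he | ⟨p₀, hp₀⟩
    · rw [he, card_empty, Nat.cast_zero]
      positivity
    · rw [mem_filter] at hp₀
      have hkB : (2 : ℝ) ^ k ≤ 2 * B := by
        have h5 := (hpow p₀ hp₀.1).2
        rw [hp₀.2] at h5
        obtain ⟨-, b1, b2, -⟩ := hs p₀ hp₀.1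
        exact h5.trans (by linarith [max_le b1 b2])
      have h5 := h1 ((2 : ℝ) ^ k) (one_le_pow₀ (by norm_num)) (s.filter (fun p => κ' p = k))
        (fun p hp => by
          rw [mem_filter] at hp
          obtain ⟨hp1, hp2⟩ := hp
          obtain ⟨c1, b1, b2, b3, b4⟩ := hs p hp1
          have h6 := hpow p hp1
          rw [hp2] at h6
          refine ⟨⟨c1, (le_max_left _ _).trans h6.1, (le_max_right _ _).trans h6.1, h6.2⟩, b3,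
            b4.trans ?_⟩
          exact mul_le_mul_of_nonneg_left (Real.rpow_le_rpow
              (le_max_of_le_left (abs_nonneg _)) h6.1 (by linarith)) (by linarith))
      refine h5.trans (mul_le_mul_of_nonneg_left ?_ hC₁.le)
      exact Real.rpow_le_rpow (by positivity) hkB (by linarith)
  have hN2 : ((N + 1 : ℕ) : ℝ) ≤ C₃ * B ^ (ε / 2) := by
    refine le_trans ?_ (h4 B hB)
    rw [hN]
    push_cast
    have := Nat.floor_le (div_nonneg (Real.log_nonneg hB) hl2.le)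
    linarith
  calc (s.card : ℝ) ≤ (((range (N + 1)).biUnion (fun k => s.filter (fun p => κ' p = k))).card : ℝ) := by
        exact_mod_cast card_le_card hcover
    _ ≤ ∑ k ∈ range (N + 1), ((s.filter (fun p => κ' p = k)).card : ℝ) := by
        exact_mod_cast card_biUnion_le
    _ ≤ ∑ k ∈ range (N + 1), C₁ * (2 * B) ^ (2 - κ + ε / 2) := sum_le_sum hone
    _ = ((N + 1 : ℕ) : ℝ) * (C₁ * (2 * B) ^ (2 - κ + ε / 2)) := by
        rw [sum_const, card_range, nsmul_eq_mul]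
    _ ≤ (C₃ * B ^ (ε / 2)) * (C₁ * (2 * B) ^ (2 - κ + ε / 2)) :=
        mul_le_mul_of_nonneg_right hN2 (by positivity)
    _ = C₃ * (C₁ * 2 ^ (2 - κ + ε / 2)) * B ^ (2 - κ + ε) := by
        have e : B ^ (2 - κ + ε) = B ^ (ε / 2) * B ^ (2 - κ + ε / 2) := by
          rw [← Real.rpow_add hB0]
          congr 1
          ring
        rw [e, Real.mul_rpow (by norm_num) hB0.le]
        ring

theorem dyad_main (f : ℤ[X]) (q : ℕ) (hq : 1 ≤ q) (hf : Sqf f q)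
    (h3 : ∀ p : ℚ[X], Irreducible p → p ∣ toQ f → p.natDegree ≤ 3)
    (κ : ℝ) (hκ0 : 0 ≤ κ) (hκ : κ ≤ 2 / 3) : Dyad f q κ :=
  fun A m ε hA hm hε => dyad f q hq hf h3 κ hκ0 hκ A hA m hm ε hε

/-- the two cases for one value of a cubic form -/
theorem dich3 (n m : ℕ) (hn : n ≠ 0) (hm : 1 ≤ m) (κ A CF Y : ℝ) (hA : 1 ≤ A) (hCF : 1 ≤ CF)
    (hY : 1 ≤ Y) (hsize : (n : ℝ) ≤ CF * Y ^ 3)
    (hrad : (radp m n : ℝ) ≤ A * Y ^ (((3 : ℕ) : ℝ) - κ)) :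
    (∃ d : ℕ, 1 ≤ d ∧ (d : ℝ) ≤ Y ^ (2 - κ) ∧ d * radp 1 d ∣ n ∧
      (n : ℝ) ≤ (m * A) * d * Y ^ (((3 : ℕ) : ℝ) - κ)) ∨
    (radp 1 n : ℝ) ≤ CF * Y ^ (1 + κ) := by
  have hY0 : 0 < Y := by linarith
  have hm0 : (1 : ℝ) ≤ m := by exact_mod_cast hm
  have hYq : 0 < Y ^ (((3 : ℕ) : ℝ) - κ) := by positivity
  have hrd : (radp 1 n : ℝ) ≤ m * A * Y ^ (((3 : ℕ) : ℝ) - κ) := by
    have h1 : (radp 1 n : ℝ) ≤ m * radp m n := by
      exact_mod_cast radp_one_le m n (by omega)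
    calc (radp 1 n : ℝ) ≤ m * radp m n := h1
      _ ≤ m * (A * Y ^ (((3 : ℕ) : ℝ) - κ)) := mul_le_mul_of_nonneg_left hrad (by positivity)
      _ = _ := by ring
  obtain ⟨r, hr⟩ : ∃ r : ℕ, r = n / radp 1 n := ⟨_, rfl⟩
  have hrn : r * radp 1 n = n := by rw [hr]; exact Nat.div_mul_cancel (radp_one_dvd n)
  have hrnR : (n : ℝ) = r * radp 1 n := by exact_mod_cast hrn.symm
  have hr1 : 1 ≤ r := by
    rcases Nat.eq_zero_or_pos r with h0 | h0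
    · rw [h0, zero_mul] at hrn
      exact absurd hrn.symm hn
    · exact h0
  by_cases hrY : (r : ℝ) ≤ Y ^ (2 - κ)
  · left
    refine ⟨r, hr1, hrY, mul_radp_dvd hn (by rw [← hr]), ?_⟩
    rw [hrnR]
    calc (r : ℝ) * radp 1 n ≤ r * (m * A * Y ^ (((3 : ℕ) : ℝ) - κ)) :=
          mul_le_mul_of_nonneg_left hrd (Nat.cast_nonneg _)
      _ = _ := by ring
  · right
    push Not at hrY
    have hYp : 0 < Y ^ (2 - κ) := by positivity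
    have h4 : CF * Y ^ 3 = CF * Y ^ (1 + κ) * Y ^ (2 - κ) := by
      rw [mul_assoc, ← Real.rpow_add hY0, ← Real.rpow_natCast Y 3]
      congr 2
      push_cast
      ring
    have h5 : (radp 1 n : ℝ) * Y ^ (2 - κ) ≤ CF * Y ^ (1 + κ) * Y ^ (2 - κ) := by
      rw [← h4]
      refine le_trans ?_ hsize
      rw [hrnR, mul_comm (r : ℝ)]
      exact mul_le_mul_of_nonneg_left hrY.le (Nat.cast_nonneg _)
    exact le_of_mul_le_mul_right h5 hYp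

theorem dyad_cubic (f : ℤ[X]) (hdeg : f.natDegree = 3) (hirr : Irreducible (toQ f))
    (κ : ℝ) (hκ0 : 0 ≤ κ) (hκ : κ ≤ 4 / 5) : Dyad f 3 κ := by
  classical
  intro A m ε hA hm hε
  have hf : Sqf f 3 := ⟨hirr.squarefree, hdeg.le, by omega⟩
  obtain ⟨CF, hCF, hsize⟩ := Pool.Agent.W505.VC.t_HOM.2.1 f 3
  have hm0 : (1 : ℝ) ≤ m := by exact_mod_cast hm
  obtain ⟨C₁, hC₁, h1⟩ := case1 f 3 (by norm_num) hf κ hκ0 (by linarith) (m * A) (by positivity)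
    ε hε
  obtain ⟨D, hD, hb⟩ := bdd_cubic f hdeg hirr ε hε
  refine ⟨C₁ + D * CF, by positivity, fun Y hY s hs => ?_⟩
  have hY0 : 0 < Y := by linarith
  have hnat : ∀ z : ℤ, ((z.natAbs : ℕ) : ℝ) = |((z : ℤ) : ℝ)| := fun z => by
    rw [Nat.cast_natAbs, Int.cast_abs]
  have hdi : ∀ p ∈ s, (∃ d : ℕ, 1 ≤ d ∧ (d : ℝ) ≤ Y ^ (2 - κ) ∧
        ((d * radp 1 d : ℕ) : ℤ) ∣ hom f 3 p.1 p.2 ∧
        |((hom f 3 p.1 p.2 : ℤ) : ℝ)| ≤ (m * A) * d * Y ^ (((3 : ℕ) : ℝ) - κ)) ∨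
      (radp 1 (hom f 3 p.1 p.2).natAbs : ℝ) ≤ CF * Y ^ (1 + κ) := by
    intro p hp
    obtain ⟨g1, g2, g3⟩ := hs p hp
    have hle : (((hom f 3 p.1 p.2).natAbs : ℕ) : ℝ) ≤ CF * Y ^ 3 := by
      rw [hnat]
      exact (hsize p.1 p.2).trans (mul_le_mul_of_nonneg_left
        (pow_le_pow_left₀ (le_max_of_le_left (abs_nonneg _)) (max_le g1.2.1 g1.2.2.1) _)
        (by linarith))
    rcases dich3 _ m (Int.natAbs_ne_zero.mpr g2) hm κ A CF Y hA hCF hY hle g3 with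
      ⟨d, hd1, hd2, hd3, hd4⟩ | h
    · left
      refine ⟨d, hd1, hd2, Int.natCast_dvd.mpr hd3, ?_⟩
      rw [← hnat]
      exact hd4
    · exact Or.inr h
  have hsplit : s ⊆ (s.filter (fun p => ∃ d : ℕ, 1 ≤ d ∧ (d : ℝ) ≤ Y ^ (2 - κ) ∧
        ((d * radp 1 d : ℕ) : ℤ) ∣ hom f 3 p.1 p.2 ∧
        |((hom f 3 p.1 p.2 : ℤ) : ℝ)| ≤ (m * A) * d * Y ^ (((3 : ℕ) : ℝ) - κ))) ∪
      (s.filter (fun p => (radp 1 (hom f 3 p.1 p.2).natAbs : ℝ) ≤ CF * Y ^ (1 + κ))) := by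
    intro p hp
    rw [mem_union, mem_filter, mem_filter]
    rcases hdi p hp with h | h
    · exact Or.inl ⟨hp, h⟩
    · exact Or.inr ⟨hp, h⟩
  have k1 := h1 Y hY _ (fun p hp => by
    have := mem_filter.mp hp
    exact ⟨(hs p this.1).1, this.2⟩ :
    ∀ p ∈ s.filter (fun p => ∃ d : ℕ, 1 ≤ d ∧ (d : ℝ) ≤ Y ^ (2 - κ) ∧
        ((d * radp 1 d : ℕ) : ℤ) ∣ hom f 3 p.1 p.2 ∧
        |((hom f 3 p.1 p.2 : ℤ) : ℝ)| ≤ (m * A) * d * Y ^ (((3 : ℕ) : ℝ) - κ)), _)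
  have k2 := hb 1 Y (CF * Y ^ (1 + κ)) le_rfl hY (by
      have : 1 ≤ Y ^ (1 + κ) := Real.one_le_rpow hY (by linarith)
      nlinarith) (s.filter (fun p => (radp 1 (hom f 3 p.1 p.2).natAbs : ℝ) ≤ CF * Y ^ (1 + κ)))
    (fun p hp => by
      have h := mem_filter.mp hp
      obtain ⟨g1, g2, -⟩ := hs p h.1
      exact ⟨g1.1, g1.2.1, g1.2.2.1, g2, h.2⟩)
  have k3 := (card_le_card hsplit).trans (card_union_le _ _)
  have k4 := (Nat.cast_le (α := ℝ)).mpr k3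
  rw [Nat.cast_add] at k4
  refine k4.trans ?_
  rw [add_mul]
  refine add_le_add k1 (k2.trans ?_)
  rw [Nat.cast_one, one_mul, Real.mul_rpow (by linarith) (by positivity), ← Real.rpow_mul hY0.le]
  have h2 : CF ^ ((1 : ℝ) / (3 / 2)) ≤ CF := by
    calc CF ^ ((1 : ℝ) / (3 / 2)) ≤ CF ^ (1 : ℝ) :=
          Real.rpow_le_rpow_of_exponent_le hCF (by norm_num)
      _ = CF := Real.rpow_one _
  have h3 : Y ^ ε * Y ^ ((1 + κ) * (1 / (3 / 2))) ≤ Y ^ (2 - κ + ε) := by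
    rw [← Real.rpow_add hY0]
    apply Real.rpow_le_rpow_of_exponent_le hY
    have : (1 + κ) * (1 / (3 / 2)) ≤ 2 - κ := by
      norm_num
      linarith
    linarith
  calc D * Y ^ ε * (CF ^ ((1 : ℝ) / (3 / 2)) * Y ^ ((1 + κ) * (1 / (3 / 2)))) =
        (D * CF ^ ((1 : ℝ) / (3 / 2))) * (Y ^ ε * Y ^ ((1 + κ) * (1 / (3 / 2)))) := by ring
    _ ≤ (D * CF) * Y ^ (2 - κ + ε) :=
      mul_le_mul (mul_le_mul_of_nonneg_left h2 hD.le) h3 (by positivity) (by positivity)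

end Pool.Agent.H461.Low
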